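import Mathlib

/-!
# Marked order and marked chain polytopes, and face numbers: definitions
-/

namespace Pool.Agent.Helper19.Marked

/-- The set of `i`-dimensional faces of a set `X`: the non-empty exposed subsets of `X`
(the sets of points of `X` at which some linear functional is maximal on `X`; the
functional `0` gives `X` itself) whose affine span has dimension `i`. -/
def faces {V : Type*} [AddCommGroup V] [Module ℝ V] [TopologicalSpace V] (X : Set V) (i : ℕ) :
    Set (Set V) :=
  {F | F.Nonempty ∧ IsExposed ℝ X F ∧ Module.finrank ℝ (vectorSpan ℝ F) = i}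

/-- The marked order polytope of `(P, A, lam)`: a subset of `ℝ ^ (P ∖ A)`. -/
def orderPolytope {P : Type*} [PartialOrder P] (A : Set P) (lam : A → ℝ) :
    Set ({p : P // p ∉ A} → ℝ) :=
  {x | (∀ p q : {p : P // p ∉ A}, (p : P) < q → x p ≤ x q) ∧
       (∀ (p : {p : P // p ∉ A}) (a : A), (p : P) < a → x p ≤ lam a) ∧
       (∀ (b : A) (q : {p : P // p ∉ A}), (b : P) < q → lam b ≤ x q)}

/-- The marked chain polytope of `(P, A, lam)`: a subset of `ℝ ^ (P ∖ A)`. The chains
`b ≺ p_n ≺ ⋯ ≺ p_1 ≺ a` with `n ≥ 1` are given by their non-empty set `S` of elements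
outside `A` and their two ends `b`, `a` in `A`. -/
def chainPolytope {P : Type*} [PartialOrder P] (A : Set P) (lam : A → ℝ) :
    Set ({p : P // p ∉ A} → ℝ) :=
  {x | (∀ p, 0 ≤ x p) ∧
       ∀ (S : Finset {p : P // p ∉ A}) (a b : A), S.Nonempty →
         IsChain (· < ·) (S : Set {p : P // p ∉ A}) →
         (∀ p ∈ S, (b : P) < p ∧ (p : P) < a) → ∑ p ∈ S, x p ≤ lam a - lam b}

end Pool.Agent.Helper19.Marked
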