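import Mathlib
import Pool.Agent.Helper19.Marked.FaceDefs

/-!
# Faces of a polyhedron given by finitely many affine inequalities
-/

open Set Module Filter Topology

namespace Pool.Agent.Helper19.Marked

variable {V : Type*} [AddCommGroup V] [Module ℝ V]

/-- The polyhedron of a family of affine functionals. -/
def sys {J : Type*} (α : J → V →ᵃ[ℝ] ℝ) : Set V := {x | ∀ j, 0 ≤ α j x}

/-- The tight constraints. -/
def tight {J : Type*} (α : J → V →ᵃ[ℝ] ℝ) (x : V) : Set J := {j | α j x = 0}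

/-- Directions along which the constraints in `T` stay tight. -/
def dir {J : Type*} (α : J → V →ᵃ[ℝ] ℝ) (T : Set J) : Submodule ℝ V where
  carrier := {v | ∀ j ∈ T, (α j).linear v = 0}
  add_mem' := by
    intro a b ha hb j hj
    rw [map_add, ha j hj, hb j hj, add_zero]
  zero_mem' := by intro j _; exact map_zero _
  smul_mem' := by
    intro c a ha j hj
    rw [map_smul, ha j hj, smul_zero]

lemma mem_dir {J : Type*} {α : J → V →ᵃ[ℝ] ℝ} {T : Set J} {v : V} :
    v ∈ dir α T ↔ ∀ j ∈ T, (α j).linear v = 0 := Iff.rfl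

lemma aff_add (β : V →ᵃ[ℝ] ℝ) (x v : V) : β (x + v) = β x + β.linear v := by
  have := β.map_vadd x v
  simp only [vadd_eq_add] at this
  rw [add_comm x v, this, add_comm]

lemma aff_add_smul (β : V →ᵃ[ℝ] ℝ) (x v : V) (t : ℝ) :
    β (x + t • v) = β x + t * β.linear v := by
  rw [aff_add, map_smul, smul_eq_mul]

lemma aff_sub (β : V →ᵃ[ℝ] ℝ) (x y : V) : β.linear (x - y) = β x - β y := by
  have := aff_add β y (x - y)
  rw [add_sub_cancel] at this
  linarith

lemma aff_comb (β : V →ᵃ[ℝ] ℝ) (x y : V) {a b : ℝ} (hab : a + b = 1) :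
    β (a • x + b • y) = a * β x + b * β y := by
  have h : a • x + b • y = x + b • (y - x) := by
    have : a = 1 - b := by linarith
    rw [this, sub_smul, one_smul, smul_sub]; abel
  rw [h, aff_add_smul, aff_sub]
  have : a = 1 - b := by linarith
  rw [this]; ring

lemma sys_convex {J : Type*} (α : J → V →ᵃ[ℝ] ℝ) : Convex ℝ (sys α) := by
  intro x hx y hy a b ha hb hab j
  rw [aff_comb _ _ _ hab]
  have := hx j; have := hy j
  positivity

/-- Eventually (for small positive `t`) a positive affine functional stays positive. -/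
lemma ev_pos (β : V →ᵃ[ℝ] ℝ) (x v : V) (h : 0 < β x) :
    ∀ᶠ t : ℝ in 𝓝[>] 0, 0 < β (x + t • v) := by
  have hc : Continuous fun t : ℝ => β x + t * β.linear v := by fun_prop
  have : ∀ᶠ t : ℝ in 𝓝 0, 0 < β x + t * β.linear v := by
    apply hc.continuousAt.eventually
    have : (0:ℝ) < β x + 0 * β.linear v := by simpa using h
    exact lt_mem_nhds this
  filter_upwards [this.filter_mono nhdsWithin_le_nhds] with t ht
  rw [aff_add_smul]; exact ht

lemma ev_gt : ∀ᶠ t : ℝ in 𝓝[>] 0, 0 < t := eventually_mem_nhdsWithin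

/-- moving a little in a direction in which tight constraints do not decrease. -/
lemma ev_sys {J : Type*} [Finite J] (α : J → V →ᵃ[ℝ] ℝ) {x v : V} (hx : x ∈ sys α)
    (hv : ∀ j ∈ tight α x, 0 ≤ (α j).linear v) :
    ∀ᶠ t : ℝ in 𝓝[>] 0, x + t • v ∈ sys α := by
  have : ∀ j, ∀ᶠ t : ℝ in 𝓝[>] 0, 0 ≤ α j (x + t • v) := by
    intro j
    by_cases hj : j ∈ tight α x
    · filter_upwards [ev_gt] with t ht
      rw [aff_add_smul, show α j x = 0 from hj, zero_add]
      exact mul_nonneg ht.le (hv j hj)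
    · have h0 : 0 < α j x := lt_of_le_of_ne (hx j) (fun h => hj h.symm)
      filter_upwards [ev_pos (α j) x v h0] with t ht
      exact ht.le
  exact eventually_all.2 this

/-- The face cut out by the constraints in `T`. -/
def faceOf {J : Type*} (α : J → V →ᵃ[ℝ] ℝ) (T : Set J) : Set V :=
  {x | x ∈ sys α ∧ ∀ j ∈ T, α j x = 0}

/-- The realised tight sets whose direction space has dimension `i`. -/
def tights {J : Type*} (α : J → V →ᵃ[ℝ] ℝ) (i : ℕ) : Set (Set J) :=
  {T | (∃ x ∈ sys α, tight α x = T) ∧ finrank ℝ (dir α T) = i}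

lemma faceOf_inj {J : Type*} (α : J → V →ᵃ[ℝ] ℝ) {T T' : Set J}
    (hT : ∃ x ∈ sys α, tight α x = T) (hT' : ∃ x ∈ sys α, tight α x = T')
    (h : faceOf α T = faceOf α T') : T = T' := by
  obtain ⟨x, hx, hxT⟩ := hT
  obtain ⟨y, hy, hyT⟩ := hT'
  apply Set.Subset.antisymm
  · have : y ∈ faceOf α T := by
      rw [h]; exact ⟨hy, fun j hj => by rw [← hyT] at hj; exact hj⟩
    intro j hj
    rw [← hyT]; exact this.2 j hj
  · have : x ∈ faceOf α T' := by
      rw [← h]; exact ⟨hx, fun j hj => by rw [← hxT] at hj; exact hj⟩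
    intro j hj
    rw [← hxT]; exact this.2 j hj

lemma vectorSpan_faceOf {J : Type*} [Finite J] (α : J → V →ᵃ[ℝ] ℝ) {T : Set J}
    (hT : ∃ x ∈ sys α, tight α x = T) : vectorSpan ℝ (faceOf α T) = dir α T := by
  obtain ⟨x, hx, hxT⟩ := hT
  have hxF : x ∈ faceOf α T := ⟨hx, fun j hj => by rw [← hxT] at hj; exact hj⟩
  apply le_antisymm
  · rw [vectorSpan_def, Submodule.span_le]
    rintro _ ⟨a, ha, b, hb, rfl⟩
    intro j hj
    show (α j).linear (a - b) = 0
    rw [aff_sub, ha.2 j hj, hb.2 j hj, sub_zero]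
  · intro v hv
    have h1 : ∀ᶠ t : ℝ in 𝓝[>] 0, x + t • v ∈ sys α := by
      apply ev_sys α hx
      intro j hj
      rw [hxT] at hj
      rw [hv j hj]
    obtain ⟨t, ht1, ht2⟩ := (h1.and ev_gt).exists
    have hF : x + t • v ∈ faceOf α T := by
      refine ⟨ht1, fun j hj => ?_⟩
      rw [aff_add_smul, hxF.2 j hj, hv j hj]; ring
    have h3 : t • v ∈ vectorSpan ℝ (faceOf α T) := by
      have := vsub_mem_vectorSpan ℝ hF hxF
      simpa using this
    have h4 := Submodule.smul_mem _ t⁻¹ h3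
    rwa [smul_smul, inv_mul_cancel₀ ht2.ne', one_smul] at h4

variable [TopologicalSpace V] [IsTopologicalAddGroup V] [ContinuousSMul ℝ V] [T2Space V]
  [FiniteDimensional ℝ V]

lemma faceOf_exposed {J : Type*} [Finite J] (α : J → V →ᵃ[ℝ] ℝ) (T : Set J)
    (hT : ∃ x ∈ sys α, tight α x = T) : IsExposed ℝ (sys α) (faceOf α T) := by
  classical
  intro _
  obtain ⟨x0, hx0, hxT⟩ := hT
  haveI := Fintype.ofFinite J
  let L : V →ₗ[ℝ] ℝ := - ∑ j ∈ Finset.univ.filter (· ∈ T), (α j).linear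
  refine ⟨LinearMap.toContinuousLinearMap L, ?_⟩
  have hL : ∀ x y : V, L y - L x =
      ∑ j ∈ Finset.univ.filter (· ∈ T), α j x - ∑ j ∈ Finset.univ.filter (· ∈ T), α j y := by
    intro x y
    rw [← map_sub, ← Finset.sum_sub_distrib]
    simp only [L, LinearMap.neg_apply, LinearMap.sum_apply, ← Finset.sum_neg_distrib]
    apply Finset.sum_congr rfl
    intro j _
    rw [aff_sub]; ring
  have hx0s : ∑ j ∈ Finset.univ.filter (· ∈ T), α j x0 = 0 := by
    apply Finset.sum_eq_zero
    intro j hj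
    rw [← hxT] at hj
    exact (Finset.mem_filter.1 hj).2
  ext x
  simp only [faceOf, Set.mem_setOf_eq, LinearMap.coe_toContinuousLinearMap']
  constructor
  · rintro ⟨hx, hxT'⟩
    refine ⟨hx, fun y hy => ?_⟩
    have h1 := hL x y
    have h2 : ∑ j ∈ Finset.univ.filter (· ∈ T), α j x = 0 :=
      Finset.sum_eq_zero fun j hj => hxT' j (Finset.mem_filter.1 hj).2
    have h3 : 0 ≤ ∑ j ∈ Finset.univ.filter (· ∈ T), α j y :=
      Finset.sum_nonneg fun j _ => hy j
    linarith
  · rintro ⟨hx, hmax⟩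
    refine ⟨hx, ?_⟩
    have h1 := hL x x0
    have h2 := hmax x0 hx0
    have h3 : 0 ≤ ∑ j ∈ Finset.univ.filter (· ∈ T), α j x :=
      Finset.sum_nonneg fun j _ => hx j
    have h4 : ∑ j ∈ Finset.univ.filter (· ∈ T), α j x = 0 := by linarith
    intro j hj
    exact (Finset.sum_eq_zero_iff_of_nonneg (fun j _ => hx j)).1 h4 j (by simp [hj])

lemma exposed_eq_faceOf {J : Type*} [Finite J] (α : J → V →ᵃ[ℝ] ℝ) {F : Set V}
    (hF : F.Nonempty) (hE : IsExposed ℝ (sys α) F) :
    ∃ T, (∃ x ∈ sys α, tight α x = T) ∧ F = faceOf α T := by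
  classical
  -- a point of `F` with the least number of tight constraints
  obtain ⟨x, hxF, hmin⟩ : ∃ x ∈ F, ∀ y ∈ F, (tight α x).ncard ≤ (tight α y).ncard := by
    obtain ⟨x0, hx0⟩ := hF
    let N : Set ℕ := (fun x => (tight α x).ncard) '' F
    have hN : N.Nonempty := ⟨_, x0, hx0, rfl⟩
    obtain ⟨x, hx, hxN⟩ := Nat.sInf_mem hN
    refine ⟨x, hx, fun y hy => ?_⟩
    have : sInf N ≤ (tight α y).ncard := Nat.sInf_le ⟨y, hy, rfl⟩
    rw [← hxN] at this
    exact this
  have hsub : F ⊆ sys α := hE.subset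
  have hconv : Convex ℝ F := hE.convex (sys_convex α)
  -- all constraints tight at `x` are tight on `F`
  have hall : ∀ y ∈ F, tight α x ⊆ tight α y := by
    intro y hy
    have hz : (2⁻¹ : ℝ) • x + (2⁻¹ : ℝ) • y ∈ F :=
      hconv hxF hy (by norm_num) (by norm_num) (by norm_num)
    have hzt : tight α ((2⁻¹ : ℝ) • x + (2⁻¹ : ℝ) • y) = tight α x ∩ tight α y := by
      ext j
      simp only [tight, Set.mem_setOf_eq, Set.mem_inter_iff]
      rw [aff_comb _ _ _ (by norm_num)]
      have h1 := hsub hxF j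
      have h2 := hsub hy j
      constructor
      · intro h
        constructor <;> linarith
      · rintro ⟨h3, h4⟩
        rw [h3, h4]; ring
    have hle := hmin _ hz
    rw [hzt] at hle
    have heq : tight α x ∩ tight α y = tight α x :=
      Set.eq_of_subset_of_ncard_le Set.inter_subset_left hle (Set.toFinite _)
    rw [← heq]; exact Set.inter_subset_right
  refine ⟨tight α x, ⟨x, hsub hxF, rfl⟩, ?_⟩
  obtain ⟨l, hl⟩ := hE ⟨x, hxF⟩
  have hxl : ∀ y ∈ sys α, l y ≤ l x := by
    rw [hl] at hxF; exact hxF.2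
  apply Set.Subset.antisymm
  · intro y hy
    exact ⟨hsub hy, fun j hj => hall y hy hj⟩
  · rintro y ⟨hy, hyT⟩
    -- move from `x` away from `y`
    have h1 : ∀ᶠ t : ℝ in 𝓝[>] 0, x + t • (x - y) ∈ sys α := by
      apply ev_sys α (hsub hxF)
      intro j hj
      rw [aff_sub, show α j x = 0 from hj, hyT j hj, sub_zero]
    obtain ⟨t, ht1, ht2⟩ := (h1.and ev_gt).exists
    have h2 := hxl _ ht1
    have h3 : l (x + t • (x - y)) = l x + t * (l x - l y) := by
      simp [map_add, map_smul, map_sub]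
    rw [h3] at h2
    have h4 : l x ≤ l y := by
      by_contra hcon
      push Not at hcon
      have := mul_pos ht2 (sub_pos.2 hcon)
      linarith
    rw [hl]
    exact ⟨hy, fun z hz => (hxl z hz).trans h4⟩

/-- The faces of dimension `i` are the faces of the tight sets of dimension `i`. -/
theorem faces_sys {J : Type*} [Finite J] (α : J → V →ᵃ[ℝ] ℝ) (i : ℕ) :
    faces (sys α) i = faceOf α '' tights α i := by
  ext F
  constructor
  · rintro ⟨hne, hE, hd⟩
    obtain ⟨T, hT, rfl⟩ := exposed_eq_faceOf α hne hE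
    refine ⟨T, ⟨hT, ?_⟩, rfl⟩
    rw [← vectorSpan_faceOf α hT]; exact hd
  · rintro ⟨T, ⟨hT, hd⟩, rfl⟩
    refine ⟨?_, faceOf_exposed α T hT, ?_⟩
    · obtain ⟨x, hx, hxT⟩ := hT
      exact ⟨x, hx, fun j hj => by rw [← hxT] at hj; exact hj⟩
    · rw [vectorSpan_faceOf α hT]; exact hd

theorem encard_faces_sys {J : Type*} [Finite J] (α : J → V →ᵃ[ℝ] ℝ) (i : ℕ) :
    (faces (sys α) i).encard = (tights α i).encard := by
  rw [faces_sys]
  exact Set.InjOn.encard_image fun T hT T' hT' h => faceOf_inj α hT.1 hT'.1 h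

theorem finite_faces_sys {J : Type*} [Finite J] (α : J → V →ᵃ[ℝ] ℝ) (i : ℕ) :
    (faces (sys α) i).Finite := by
  rw [faces_sys]
  exact (Set.toFinite _).image _

end Pool.Agent.Helper19.Marked
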