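import Mathlib
import Pool.Agent.Helper19.Marked.FaceBridge

/-!
# Cells of the subdivisions given by an upper and a lower envelope

`α` : constraints of the base; `l` : lower functionals; `u` : upper functionals.
-/

open Set Module Filter Topology

namespace Pool.Agent.Helper19.Marked

variable {V : Type*} [AddCommGroup V] [Module ℝ V]
variable {J K M : Type*}

/-- Base points at which all lower functionals are below all upper ones. -/
def reg (α : J → V →ᵃ[ℝ] ℝ) (l : K → V →ᵃ[ℝ] ℝ) (u : M → V →ᵃ[ℝ] ℝ) : Set V :=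
  {x | x ∈ sys α ∧ ∀ k m, l k x < u m x}

/-- The lower functionals attaining the maximum at `x`. -/
def kap (l : K → V →ᵃ[ℝ] ℝ) (x : V) : Set K := {k | ∀ k', l k' x ≤ l k x}

/-- The upper functionals attaining the minimum at `x`. -/
def mu (u : M → V →ᵃ[ℝ] ℝ) (x : V) : Set M := {m | ∀ m', u m x ≤ u m' x}

/-- Directions in which the functionals in `κ` stay tied. -/
def tie (l : K → V →ᵃ[ℝ] ℝ) (κ : Set K) : Submodule ℝ V where
  carrier := {v | ∀ k ∈ κ, ∀ k' ∈ κ, (l k).linear v = (l k').linear v}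
  add_mem' := by
    intro a b ha hb k hk k' hk'
    rw [map_add, map_add, ha k hk k' hk', hb k hk k' hk']
  zero_mem' := by intro k _ k' _; rw [map_zero, map_zero]
  smul_mem' := by
    intro c a ha k hk k' hk'
    rw [map_smul, map_smul, ha k hk k' hk']

lemma kap_nonempty [Finite K] [Nonempty K] (l : K → V →ᵃ[ℝ] ℝ) (x : V) :
    (kap l x).Nonempty := by
  obtain ⟨k, hk⟩ := Finite.exists_max (fun k => l k x)
  exact ⟨k, hk⟩

lemma mu_nonempty [Finite M] [Nonempty M] (u : M → V →ᵃ[ℝ] ℝ) (x : V) :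
    (mu u x).Nonempty := by
  obtain ⟨m, hm⟩ := Finite.exists_min (fun m => u m x)
  exact ⟨m, hm⟩

lemma tight_move (α : J → V →ᵃ[ℝ] ℝ) [Finite J] {x v : V} (hx : x ∈ sys α)
    (hv : v ∈ dir α (tight α x)) :
    ∀ᶠ t : ℝ in 𝓝[>] 0, x + t • v ∈ sys α ∧ tight α (x + t • v) = tight α x := by
  have h1 : ∀ᶠ t : ℝ in 𝓝[>] 0, x + t • v ∈ sys α :=
    ev_sys α hx fun j hj => (hv j hj).ge
  have h2 : ∀ j, ∀ᶠ t : ℝ in 𝓝[>] 0, (α j (x + t • v) = 0 ↔ α j x = 0) := by
    intro j
    by_cases hj : α j x = 0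
    · filter_upwards with t
      rw [aff_add_smul, hv j hj, mul_zero, add_zero]
    · have h0 : 0 < α j x := lt_of_le_of_ne (hx j) (fun h => hj h.symm)
      filter_upwards [ev_pos (α j) x v h0] with t ht
      constructor
      · intro h; exact absurd h ht.ne'
      · intro h; exact absurd h hj
  filter_upwards [h1, eventually_all.2 h2] with t ht1 ht2
  exact ⟨ht1, Set.ext ht2⟩

lemma kap_move [Finite K] (l : K → V →ᵃ[ℝ] ℝ) (x v : V) :
    ∀ᶠ t : ℝ in 𝓝[>] 0, kap l (x + t • v) =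
      {k | k ∈ kap l x ∧ ∀ k' ∈ kap l x, (l k').linear v ≤ (l k).linear v} := by
  -- pairwise comparison
  have h1 : ∀ k k', ∀ᶠ t : ℝ in 𝓝[>] 0, (l k' (x + t • v) ≤ l k (x + t • v) ↔
      (l k' x < l k x ∨ (l k' x = l k x ∧ (l k').linear v ≤ (l k).linear v))) := by
    intro k k'
    rcases lt_trichotomy (l k' x) (l k x) with h | h | h
    · have := ev_pos (l k - l k') x v (by simpa using h)
      filter_upwards [this] with t ht
      have ht' : l k' (x + t • v) < l k (x + t • v) := by simpa using ht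
      constructor
      · intro _; exact Or.inl h
      · intro _; exact ht'.le
    · filter_upwards [ev_gt] with t ht
      rw [aff_add_smul, aff_add_smul, h]
      constructor
      · intro h2
        right
        refine ⟨rfl, ?_⟩
        by_contra hcon
        push Not at hcon
        have := mul_lt_mul_of_pos_left hcon ht
        linarith
      · rintro (h2 | ⟨_, h2⟩)
        · exact absurd h2 (lt_irrefl _)
        · have := mul_le_mul_of_nonneg_left h2 ht.le
          linarith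
    · have := ev_pos (l k' - l k) x v (by simpa using h)
      filter_upwards [this] with t ht
      have ht' : l k (x + t • v) < l k' (x + t • v) := by simpa using ht
      constructor
      · intro h2; exact absurd h2 (not_le.2 ht')
      · rintro (h2 | ⟨h2, _⟩)
        · exact absurd h2 (not_lt.2 h.le)
        · exact absurd h2 h.ne'
  have h2 := eventually_all.2 fun k => eventually_all.2 (h1 k)
  filter_upwards [h2] with t ht
  ext k
  constructor
  · intro hk
    have hk' : ∀ k', l k' (x + t • v) ≤ l k (x + t • v) := hk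
    have hmax : k ∈ kap l x := by
      intro k'
      rcases (ht k k').1 (hk' k') with h | ⟨h, _⟩
      · exact h.le
      · exact h.le
    refine ⟨hmax, fun k' hk'2 => ?_⟩
    rcases (ht k k').1 (hk' k') with h | ⟨_, h⟩
    · exact absurd (hk'2 k) (not_le.2 h)
    · exact h
  · rintro ⟨hk, hk2⟩ k'
    rw [ht k k']
    rcases lt_or_eq_of_le (hk k') with h | h
    · exact Or.inl h
    · right
      refine ⟨h, hk2 k' ?_⟩
      intro k''
      rw [h]; exact hk k''

lemma mu_eq_kap_neg (u : M → V →ᵃ[ℝ] ℝ) (x : V) : mu u x = kap (fun m => - u m) x := by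
  ext m
  simp only [mu, kap, Set.mem_ofPred_eq]
  constructor
  · intro h m'; have := h m'; simpa using this
  · intro h m'; have := h m'; simpa using this

lemma mu_move [Finite M] (u : M → V →ᵃ[ℝ] ℝ) (x v : V) :
    ∀ᶠ t : ℝ in 𝓝[>] 0, mu u (x + t • v) =
      {m | m ∈ mu u x ∧ ∀ m' ∈ mu u x, (u m).linear v ≤ (u m').linear v} := by
  have := kap_move (fun m => - u m) x v
  filter_upwards [this] with t ht
  rw [mu_eq_kap_neg, ht]
  ext m
  simp only [← mu_eq_kap_neg, Set.mem_ofPred_eq]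
  constructor
  · rintro ⟨h1, h2⟩; refine ⟨h1, fun m' hm' => ?_⟩; have := h2 m' hm'; simpa using this
  · rintro ⟨h1, h2⟩; refine ⟨h1, fun m' hm' => ?_⟩; have := h2 m' hm'; simpa using this

lemma reg_move [Finite J] [Finite K] [Finite M] {α : J → V →ᵃ[ℝ] ℝ} {l : K → V →ᵃ[ℝ] ℝ}
    {u : M → V →ᵃ[ℝ] ℝ} {x v : V}
    (hx : x ∈ reg α l u) (hv : v ∈ dir α (tight α x)) :
    ∀ᶠ t : ℝ in 𝓝[>] 0, x + t • v ∈ reg α l u ∧ tight α (x + t • v) = tight α x := by
  have h1 := tight_move α hx.1 hv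
  have h2 : ∀ k m, ∀ᶠ t : ℝ in 𝓝[>] 0, l k (x + t • v) < u m (x + t • v) := by
    intro k m
    have := ev_pos (u m - l k) x v (by simpa using hx.2 k m)
    filter_upwards [this] with t ht
    simpa using ht
  have h3 := eventually_all.2 fun k => eventually_all.2 (h2 k)
  filter_upwards [h1, h3] with t ht1 ht2
  exact ⟨⟨ht1.1, ht2⟩, ht1.2⟩

/-- The independence hypothesis. -/
def Indep (α : J → V →ᵃ[ℝ] ℝ) (l : K → V →ᵃ[ℝ] ℝ) (u : M → V →ᵃ[ℝ] ℝ) : Prop :=
  ∀ x ∈ reg α l u, ∀ v ∈ dir α (tight α x),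
    ∃ a b, a ∈ dir α (tight α x) ∧ a ∈ tie l (kap l x) ∧
      b ∈ dir α (tight α x) ∧ b ∈ tie u (mu u x) ∧ v = a + b

variable [Finite J] [Finite K] [Finite M] {α : J → V →ᵃ[ℝ] ℝ} {l : K → V →ᵃ[ℝ] ℝ}
  {u : M → V →ᵃ[ℝ] ℝ}

/-- Refinement keeping the lower pattern. -/
lemma refine_mu [Nonempty M] {x : V} (hx : x ∈ reg α l u) :
    ∃ y ∈ reg α l u, tight α y = tight α x ∧ kap l y = kap l x ∧
      dir α (tight α x) ⊓ tie l (kap l x) ≤ tie u (mu u y) := by
  classical
  let S : Set V := {y | y ∈ reg α l u ∧ tight α y = tight α x ∧ kap l y = kap l x}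
  let N : Set ℕ := (fun y => (mu u y).ncard) '' S
  have hN : N.Nonempty := ⟨_, x, ⟨hx, rfl, rfl⟩, rfl⟩
  obtain ⟨y, hy, hyN⟩ := Nat.sInf_mem hN
  have hmin : ∀ z ∈ S, (mu u y).ncard ≤ (mu u z).ncard := by
    intro z hz
    have : sInf N ≤ (mu u z).ncard := Nat.sInf_le ⟨z, hz, rfl⟩
    rw [← hyN] at this; exact this
  refine ⟨y, hy.1, hy.2.1, hy.2.2, ?_⟩
  rintro v ⟨hv1, hv2⟩
  by_contra hcon
  have hv1' : v ∈ dir α (tight α y) := by rw [hy.2.1]; exact hv1
  obtain ⟨t, ⟨⟨ht1, ht2⟩, ht3⟩, ht4⟩ :=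
    (((reg_move hy.1 hv1').and (mu_move u y v)).and (kap_move l y v)).exists
  have hk : kap l (y + t • v) = kap l x := by
    rw [ht4, hy.2.2]
    ext k
    constructor
    · rintro ⟨h, _⟩; exact h
    · intro h; exact ⟨h, fun k' hk' => (hv2 k' hk' k h).le⟩
  have hS : y + t • v ∈ S := ⟨ht1, ht2.trans hy.2.1, hk⟩
  have hle := hmin _ hS
  have hsub : mu u (y + t • v) ⊆ mu u y := by
    rw [ht3]; exact fun m hm => hm.1
  have heq : mu u (y + t • v) = mu u y :=
    Set.eq_of_subset_of_ncard_le hsub hle (Set.toFinite _)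
  apply hcon
  intro m hm m' hm'
  rw [← heq, ht3] at hm hm'
  exact le_antisymm (hm.2 m' hm'.1) (hm'.2 m hm.1)

/-- Refinement keeping the upper pattern. -/
lemma refine_kap [Nonempty K] {x : V} (hx : x ∈ reg α l u) :
    ∃ y ∈ reg α l u, tight α y = tight α x ∧ mu u y = mu u x ∧
      dir α (tight α x) ⊓ tie u (mu u x) ≤ tie l (kap l y) := by
  classical
  let S : Set V := {y | y ∈ reg α l u ∧ tight α y = tight α x ∧ mu u y = mu u x}
  let N : Set ℕ := (fun y => (kap l y).ncard) '' S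
  have hN : N.Nonempty := ⟨_, x, ⟨hx, rfl, rfl⟩, rfl⟩
  obtain ⟨y, hy, hyN⟩ := Nat.sInf_mem hN
  have hmin : ∀ z ∈ S, (kap l y).ncard ≤ (kap l z).ncard := by
    intro z hz
    have : sInf N ≤ (kap l z).ncard := Nat.sInf_le ⟨z, hz, rfl⟩
    rw [← hyN] at this; exact this
  refine ⟨y, hy.1, hy.2.1, hy.2.2, ?_⟩
  rintro v ⟨hv1, hv2⟩
  by_contra hcon
  have hv1' : v ∈ dir α (tight α y) := by rw [hy.2.1]; exact hv1
  obtain ⟨t, ⟨⟨ht1, ht2⟩, ht3⟩, ht4⟩ :=
    (((reg_move hy.1 hv1').and (kap_move l y v)).and (mu_move u y v)).exists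
  have hk : mu u (y + t • v) = mu u x := by
    rw [ht4, hy.2.2]
    ext k
    constructor
    · rintro ⟨h, _⟩; exact h
    · intro h; exact ⟨h, fun k' hk' => (hv2 k' hk' k h).ge⟩
  have hS : y + t • v ∈ S := ⟨ht1, ht2.trans hy.2.1, hk⟩
  have hle := hmin _ hS
  have hsub : kap l (y + t • v) ⊆ kap l y := by
    rw [ht3]; exact fun m hm => hm.1
  have heq : kap l (y + t • v) = kap l y :=
    Set.eq_of_subset_of_ncard_le hsub hle (Set.toFinite _)
  apply hcon
  intro m hm m' hm'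
  rw [← heq, ht3] at hm hm'
  exact le_antisymm (hm'.2 m hm.1) (hm.2 m' hm'.1)

/-- Full refinement. -/
lemma refine_both {x : V} (hx : x ∈ reg α l u) :
    ∃ y ∈ reg α l u, tight α y = tight α x ∧ kap l y ⊆ kap l x ∧ mu u y ⊆ mu u x ∧
      dir α (tight α x) ≤ tie l (kap l y) ∧ dir α (tight α x) ≤ tie u (mu u y) := by
  classical
  let S : Set V := {y | y ∈ reg α l u ∧ tight α y = tight α x ∧ kap l y ⊆ kap l x ∧
    mu u y ⊆ mu u x}
  let N : Set ℕ := (fun y => (kap l y).ncard + (mu u y).ncard) '' S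
  have hN : N.Nonempty := ⟨_, x, ⟨hx, rfl, subset_rfl, subset_rfl⟩, rfl⟩
  obtain ⟨y, hy, hyN⟩ := Nat.sInf_mem hN
  have hmin : ∀ z ∈ S, (kap l y).ncard + (mu u y).ncard ≤ (kap l z).ncard + (mu u z).ncard := by
    intro z hz
    have : sInf N ≤ (kap l z).ncard + (mu u z).ncard := Nat.sInf_le ⟨z, hz, rfl⟩
    rw [← hyN] at this; exact this
  have key : ∀ v ∈ dir α (tight α x), v ∈ tie l (kap l y) ∧ v ∈ tie u (mu u y) := by
    intro v hv
    have hv1' : v ∈ dir α (tight α y) := by rw [hy.2.1]; exact hv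
    obtain ⟨t, ⟨⟨ht1, ht2⟩, ht3⟩, ht4⟩ :=
      (((reg_move hy.1 hv1').and (kap_move l y v)).and (mu_move u y v)).exists
    have hsub1 : kap l (y + t • v) ⊆ kap l y := by
      rw [ht3]; exact fun m hm => hm.1
    have hsub2 : mu u (y + t • v) ⊆ mu u y := by
      rw [ht4]; exact fun m hm => hm.1
    have hS : y + t • v ∈ S :=
      ⟨ht1, ht2.trans hy.2.1, hsub1.trans hy.2.2.1, hsub2.trans hy.2.2.2⟩
    have hle := hmin _ hS
    have hc1 := Set.ncard_le_ncard hsub1 (Set.toFinite _)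
    have hc2 := Set.ncard_le_ncard hsub2 (Set.toFinite _)
    have heq1 : kap l (y + t • v) = kap l y :=
      Set.eq_of_subset_of_ncard_le hsub1 (by omega) (Set.toFinite _)
    have heq2 : mu u (y + t • v) = mu u y :=
      Set.eq_of_subset_of_ncard_le hsub2 (by omega) (Set.toFinite _)
    constructor
    · intro m hm m' hm'
      rw [← heq1, ht3] at hm hm'
      exact le_antisymm (hm'.2 m hm.1) (hm.2 m' hm'.1)
    · intro m hm m' hm'
      rw [← heq2, ht4] at hm hm'
      exact le_antisymm (hm.2 m' hm'.1) (hm'.2 m hm.1)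
  exact ⟨y, hy.1, hy.2.1, hy.2.2.1, hy.2.2.2, fun v hv => (key v hv).1, fun v hv => (key v hv).2⟩

/-- Local product structure. -/
lemma product_cell [Nonempty K] [Nonempty M] (hI : Indep α l u) {x x1 x2 : V}
    (hx : x ∈ reg α l u)
    (ht1 : tight α x1 = tight α x) (ht2 : tight α x2 = tight α x)
    (hk : kap l x1 ⊆ kap l x) (hm : mu u x2 ⊆ mu u x) :
    ∃ y ∈ reg α l u, tight α y = tight α x ∧ kap l y = kap l x1 ∧ mu u y = mu u x2 := by
  have hw : ∀ z, tight α z = tight α x → z - x ∈ dir α (tight α x) := by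
    intro z hz j hj
    have h1 : α j x = 0 := hj
    have h2 : α j z = 0 := by
      have : j ∈ tight α z := by rw [hz]; exact hj
      exact this
    rw [aff_sub, h1, h2, sub_zero]
  obtain ⟨a1, b1, ha1, ha1', hb1, hb1', h1⟩ := hI x hx (x1 - x) (hw x1 ht1)
  obtain ⟨a2, b2, ha2, ha2', hb2, hb2', h2⟩ := hI x hx (x2 - x) (hw x2 ht2)
  have hv : b1 + a2 ∈ dir α (tight α x) := Submodule.add_mem _ hb1 ha2
  obtain ⟨t, ⟨⟨h3, h4⟩, h5⟩, h6⟩ :=
    (((reg_move hx hv).and (kap_move l x (b1 + a2))).and (mu_move u x (b1 + a2))).exists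
  refine ⟨_, h3, h4, ?_, ?_⟩
  · rw [h5]
    obtain ⟨k0, hk0⟩ := kap_nonempty l x1
    -- comparing linear parts is comparing values at `x1`
    have hcmp : ∀ k ∈ kap l x, ∀ k' ∈ kap l x,
        ((l k').linear (b1 + a2) ≤ (l k).linear (b1 + a2) ↔ l k' x1 ≤ l k x1) := by
      intro k hk k' hk'
      have e1 := ha1' k hk k' hk'
      have e2 := ha2' k hk k' hk'
      have e3 : ∀ k, (l k).linear b1 = l k x1 - l k x - (l k).linear a1 := by
        intro k
        have : b1 = (x1 - x) - a1 := by rw [h1]; abel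
        rw [this, map_sub, aff_sub]
      have e4 : l k x = l k' x := le_antisymm (hk' k) (hk k')
      rw [map_add, map_add, e3 k, e3 k', e1, e2, e4]
      constructor <;> intro h <;> linarith
    ext k
    constructor
    · rintro ⟨hkx, h⟩ k'
      have := (hcmp k hkx k0 (hk hk0)).1 (h k0 (hk hk0))
      exact (hk0 k').trans this
    · intro hkx
      exact ⟨hk hkx, fun k' hk' => (hcmp k (hk hkx) k' hk').2 (hkx k')⟩
  · rw [h6]
    obtain ⟨m0, hm0⟩ := mu_nonempty u x2
    have hcmp : ∀ k ∈ mu u x, ∀ k' ∈ mu u x,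
        ((u k').linear (b1 + a2) ≤ (u k).linear (b1 + a2) ↔ u k' x2 ≤ u k x2) := by
      intro k hk k' hk'
      have e1 := hb1' k hk k' hk'
      have e2 := hb2' k hk k' hk'
      have e3 : ∀ k, (u k).linear a2 = u k x2 - u k x - (u k).linear b2 := by
        intro k
        have : a2 = (x2 - x) - b2 := by rw [h2]; abel
        rw [this, map_sub, aff_sub]
      have e4 : u k x = u k' x := le_antisymm (hk k') (hk' k)
      rw [map_add, map_add, e3 k, e3 k', e1, e2, e4]
      constructor <;> intro h <;> linarith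
    ext m
    constructor
    · rintro ⟨hmx, h⟩ m'
      have := (hcmp m0 (hm hm0) m hmx).1 (h m0 (hm hm0))
      exact this.trans (hm0 m')
    · intro hmx
      exact ⟨hm hmx, fun m' hm' => (hcmp m' hm' m (hm hmx)).2 (hmx m')⟩

end Pool.Agent.Helper19.Marked
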