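import Mathlib
import Pool.Agent.Helper19.Marked.StepCells

/-!
# The counting inequality for cells of two transversal subdivisions
-/

open Set Module Filter Topology

namespace Pool.Agent.Helper19.Marked

variable {V : Type*} [AddCommGroup V] [Module ℝ V]
variable {J K M : Type*}

/-- base faces -/
def X0 (α : J → V →ᵃ[ℝ] ℝ) (l : K → V →ᵃ[ℝ] ℝ) (u : M → V →ᵃ[ℝ] ℝ) (d : ℕ) : Set (Set J) :=
  {σ | ∃ x ∈ reg α l u, tight α x = σ ∧ finrank ℝ (dir α σ) = d}

/-- lower cells -/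
def Xh (α : J → V →ᵃ[ℝ] ℝ) (l : K → V →ᵃ[ℝ] ℝ) (u : M → V →ᵃ[ℝ] ℝ) (d : ℕ) :
    Set (Set J × Set K) :=
  {p | ∃ x ∈ reg α l u, tight α x = p.1 ∧ kap l x = p.2 ∧
    finrank ℝ (dir α p.1 ⊓ tie l p.2 : Submodule ℝ V) = d}

/-- upper cells -/
def Xg (α : J → V →ᵃ[ℝ] ℝ) (l : K → V →ᵃ[ℝ] ℝ) (u : M → V →ᵃ[ℝ] ℝ) (d : ℕ) :
    Set (Set J × Set M) :=
  {p | ∃ x ∈ reg α l u, tight α x = p.1 ∧ mu u x = p.2 ∧
    finrank ℝ (dir α p.1 ⊓ tie u p.2 : Submodule ℝ V) = d}

/-- cells of the common refinement -/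
def Xgh (α : J → V →ᵃ[ℝ] ℝ) (l : K → V →ᵃ[ℝ] ℝ) (u : M → V →ᵃ[ℝ] ℝ) (d : ℕ) :
    Set (Set J × Set K × Set M) :=
  {p | ∃ x ∈ reg α l u, tight α x = p.1 ∧ kap l x = p.2.1 ∧ mu u x = p.2.2 ∧
    finrank ℝ (dir α p.1 ⊓ tie l p.2.1 ⊓ tie u p.2.2 : Submodule ℝ V) = d}

section top

variable [TopologicalSpace V] [IsTopologicalAddGroup V] [ContinuousSMul ℝ V] [T2Space V]
  [FiniteDimensional ℝ V]

omit [IsTopologicalAddGroup V] [ContinuousSMul ℝ V] [T2Space V] [FiniteDimensional ℝ V] in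
lemma aff_continuous [IsTopologicalAddGroup V] [ContinuousSMul ℝ V] [T2Space V]
    [FiniteDimensional ℝ V] (β : V →ᵃ[ℝ] ℝ) : Continuous β := by
  have h : (β : V → ℝ) = fun x => β 0 + β.linear x := by
    funext x
    have := aff_add β 0 x
    rw [zero_add] at this; exact this
  rw [h]
  exact continuous_const.add (LinearMap.continuous_of_finiteDimensional _)

omit [T2Space V] [FiniteDimensional ℝ V] in
lemma region_preconnected (α : J → V →ᵃ[ℝ] ℝ) (l : K → V →ᵃ[ℝ] ℝ) (u : M → V →ᵃ[ℝ] ℝ)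
    (σ : Set J) : IsPreconnected {x | x ∈ reg α l u ∧ tight α x = σ} := by
  apply Convex.isPreconnected
  rintro x ⟨hx, hxσ⟩ y ⟨hy, hyσ⟩ a b ha hb hab
  refine ⟨⟨sys_convex α hx.1 hy.1 ha hb hab, ?_⟩, ?_⟩
  · intro k m
    rw [aff_comb _ _ _ hab, aff_comb _ _ _ hab]
    have h1 := hx.2 k m
    have h2 := hy.2 k m
    rcases eq_or_lt_of_le ha with h | h
    · have : b = 1 := by linarith
      rw [← h, this]; linarith
    · have h3 := mul_lt_mul_of_pos_left h1 h
      have h4 := mul_le_mul_of_nonneg_left h2.le hb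
      linarith
  · ext j
    simp only [tight, Set.mem_ofPred_eq]
    rw [aff_comb _ _ _ hab]
    have h1 := hx.1 j
    have h2 := hy.1 j
    have e1 : α j x = 0 ↔ j ∈ σ := by rw [← hxσ]; rfl
    have e2 : α j y = 0 ↔ j ∈ σ := by rw [← hyσ]; rfl
    constructor
    · intro h
      rcases eq_or_lt_of_le ha with h' | h'
      · have hb1 : b = 1 := by linarith
        rw [← h', hb1] at h
        apply e2.1; linarith
      · apply e1.1
        have h3 : 0 ≤ b * α j y := mul_nonneg hb h2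
        have h4 : 0 ≤ a * α j x := mul_nonneg h'.le h1
        have h5 : a * α j x = 0 := by linarith
        rcases mul_eq_zero.1 h5 with h6 | h6
        · exact absurd h6 h'.ne'
        · exact h6
    · intro h
      rw [e1.2 h, e2.2 h]; ring

lemma kap_near [Finite K] (l : K → V →ᵃ[ℝ] ℝ) (x : V) : ∀ᶠ y in 𝓝 x, kap l y ⊆ kap l x := by
  have : ∀ k, ∀ᶠ y in 𝓝 x, k ∈ kap l y → k ∈ kap l x := by
    intro k
    by_cases hk : k ∈ kap l x
    · filter_upwards with y _ using hk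
    · have : ∃ k', l k x < l k' x := by
        by_contra hcon
        push Not at hcon
        exact hk hcon
      obtain ⟨k', hk'⟩ := this
      have h1 : ∀ᶠ y in 𝓝 x, l k y < l k' y :=
        (aff_continuous (l k)).continuousAt.eventually_lt (aff_continuous (l k')).continuousAt hk'
      filter_upwards [h1] with y hy hky
      exact absurd (hky k') (not_le.2 hy)
  filter_upwards [eventually_all.2 this] with y hy k hk
  exact hy k hk

lemma mu_near [Finite M] (u : M → V →ᵃ[ℝ] ℝ) (x : V) : ∀ᶠ y in 𝓝 x, mu u y ⊆ mu u x := by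
  filter_upwards [kap_near (fun m => - u m) x] with y hy
  rw [mu_eq_kap_neg, mu_eq_kap_neg]; exact hy

variable [Finite J] [Finite K] [Finite M] {α : J → V →ᵃ[ℝ] ℝ} {l : K → V →ᵃ[ℝ] ℝ}
  {u : M → V →ᵃ[ℝ] ℝ}

/-- Functions on lower and upper full cells of a base face which agree on common cells are
constant. -/
lemma cells_connected [Nonempty K] [Nonempty M] (hI : Indep α l u) (σ : Set J)
    (F : Set K → ℝ) (G : Set M → ℝ)
    (hFG : ∀ x ∈ reg α l u, tight α x = σ → dir α σ ≤ tie l (kap l x) →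
      dir α σ ≤ tie u (mu u x) → F (kap l x) = G (mu u x))
    {x y : V} (hx : x ∈ reg α l u) (hxσ : tight α x = σ)
    (hx1 : dir α σ ≤ tie l (kap l x)) (hx2 : dir α σ ≤ tie u (mu u x))
    (hy : y ∈ reg α l u) (hyσ : tight α y = σ)
    (hy1 : dir α σ ≤ tie l (kap l y)) (hy2 : dir α σ ≤ tie u (mu u y)) :
    F (kap l x) = F (kap l y) := by
  let Full : V → Prop := fun z => z ∈ reg α l u ∧ tight α z = σ ∧
    dir α σ ≤ tie l (kap l z) ∧ dir α σ ≤ tie u (mu u z)
  let P : V → V → Prop := fun a b => ∀ a' b', Full a' → Full b' →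
    kap l a' ⊆ kap l a → mu u a' ⊆ mu u a → kap l b' ⊆ kap l b → mu u b' ⊆ mu u b →
    F (kap l a') = F (kap l b')
  have hP : P x y := by
    apply (region_preconnected α l u σ).induction₂ P
    · rintro a ⟨ha, haσ⟩
      have h1 : ∀ᶠ z in 𝓝[{x | x ∈ reg α l u ∧ tight α x = σ}] a, kap l z ⊆ kap l a :=
        (kap_near l a).filter_mono nhdsWithin_le_nhds
      have h2 : ∀ᶠ z in 𝓝[{x | x ∈ reg α l u ∧ tight α x = σ}] a, mu u z ⊆ mu u a :=
        (mu_near u a).filter_mono nhdsWithin_le_nhds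
      filter_upwards [h1, h2] with z hz1 hz2
      intro a' b' ha' hb' h3 h4 h5 h6
      obtain ⟨w, hw, hwσ, hwk, hwm⟩ := product_cell hI ha
        (ha'.2.1.trans haσ.symm) (hb'.2.1.trans haσ.symm) h3 (h6.trans hz2)
      have e1 := hFG a' ha'.1 ha'.2.1 ha'.2.2.1 ha'.2.2.2
      have e2 := hFG b' hb'.1 hb'.2.1 hb'.2.2.1 hb'.2.2.2
      have e3 := hFG w hw (hwσ.trans haσ) (by rw [hwk]; exact ha'.2.2.1)
        (by rw [hwm]; exact hb'.2.2.2)
      rw [hwk, hwm] at e3
      rw [e3, e2]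
    · rintro a b c _ ⟨hb, hbσ⟩ _ hab hbc
      intro a' c' ha' hc' h1 h2 h3 h4
      obtain ⟨b', hb', hb'σ, h5, h6, h7, h8⟩ := refine_both hb
      have hbF : Full b' := ⟨hb', hb'σ.trans hbσ, by rw [← hbσ]; exact h7,
        by rw [← hbσ]; exact h8⟩
      exact (hab a' b' ha' hbF h1 h2 h5 h6).trans (hbc b' c' hbF hc' h5 h6 h3 h4)
    · intro a b _ _ hab a' b' ha' hb' h1 h2 h3 h4
      exact (hab b' a' hb' ha' h3 h4 h1 h2).symm
    · exact ⟨hx, hxσ⟩
    · exact ⟨hy, hyσ⟩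
  exact hP x y ⟨hx, hxσ, hx1, hx2⟩ ⟨hy, hyσ, hy1, hy2⟩ subset_rfl subset_rfl subset_rfl
    subset_rfl

open Classical in
/-- The counting inequality. -/
theorem count_cells [Nonempty K] [Nonempty M] (hI : Indep α l u) (d : ℕ) :
    Nat.card (Xh α l u d) + Nat.card (Xg α l u d) ≤
      Nat.card (Xgh α l u d) + Nat.card (X0 α l u d) := by
  -- for every base face of dimension `d` a full point
  have hfull : ∀ σ : X0 α l u d, ∃ y ∈ reg α l u, tight α y = σ.1 ∧
      dir α σ.1 ≤ tie l (kap l y) ∧ dir α σ.1 ≤ tie u (mu u y) := by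
    intro σ
    obtain ⟨x, hx, hxσ, hd⟩ := σ.2
    obtain ⟨y, hy, hyσ, _, _, h1, h2⟩ := refine_both hx
    rw [hxσ] at h1 h2
    exact ⟨y, hy, hyσ.trans hxσ, h1, h2⟩
  choose y0 hy0 hy0σ hy0k hy0m using hfull
  have hd0 : ∀ σ : X0 α l u d, finrank ℝ (dir α σ.1) = d := fun σ => by
    obtain ⟨x, _, _, hd⟩ := σ.2; exact hd
  have hbase : ∀ σ : X0 α l u d, (σ.1, kap l (y0 σ)) ∈ Xh α l u d := fun σ =>
    ⟨y0 σ, hy0 σ, hy0σ σ, rfl, by
      show finrank ℝ (dir α σ.1 ⊓ tie l (kap l (y0 σ)) : Submodule ℝ V) = d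
      rw [inf_eq_left.2 (hy0k σ)]; exact hd0 σ⟩
  have := Fintype.ofFinite (Xh α l u d)
  have := Fintype.ofFinite (Xg α l u d)
  have := Fintype.ofFinite (Xgh α l u d)
  have := Fintype.ofFinite (X0 α l u d)
  let A : Xgh α l u d → ((Xh α l u d → ℝ) × (Xg α l u d → ℝ) →ₗ[ℝ] ℝ) := fun z =>
    (if h : (z.1.1, z.1.2.1) ∈ Xh α l u d then
      (LinearMap.proj ⟨_, h⟩).comp (LinearMap.fst ℝ _ _) else 0) -
    (if h : (z.1.1, z.1.2.2) ∈ Xg α l u d then
      (LinearMap.proj ⟨_, h⟩).comp (LinearMap.snd ℝ _ _) else 0)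
  let B : X0 α l u d → ((Xh α l u d → ℝ) × (Xg α l u d → ℝ) →ₗ[ℝ] ℝ) := fun σ =>
    (LinearMap.proj ⟨_, hbase σ⟩).comp (LinearMap.fst ℝ _ _)
  let T : (Xh α l u d → ℝ) × (Xg α l u d → ℝ) →ₗ[ℝ] (Xgh α l u d → ℝ) × (X0 α l u d → ℝ) :=
    (LinearMap.pi A).prod (LinearMap.pi B)
  have hT : Function.Injective T := by
    rw [injective_iff_map_eq_zero]
    rintro ⟨f, g⟩ hfg
    -- extended functions
    let f' : Set J → Set K → ℝ := fun σ κ => if h : (σ, κ) ∈ Xh α l u d then f ⟨_, h⟩ else 0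
    let g' : Set J → Set M → ℝ := fun σ μ => if h : (σ, μ) ∈ Xg α l u d then g ⟨_, h⟩ else 0
    have hA : ∀ z ∈ Xgh α l u d, f' z.1 z.2.1 = g' z.1 z.2.2 := by
      intro z hz
      have h1 : A ⟨z, hz⟩ (f, g) = 0 := by
        have := congrArg (fun p => p.1 ⟨z, hz⟩) hfg
        simpa [T] using this
      simp only [A, LinearMap.sub_apply] at h1
      simp only [f', g']
      by_cases h2 : (z.1, z.2.1) ∈ Xh α l u d <;> by_cases h3 : (z.1, z.2.2) ∈ Xg α l u d <;>
        simp [h2, h3] at h1 ⊢ <;> linarith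
    have hB : ∀ σ : X0 α l u d, f' σ.1 (kap l (y0 σ)) = 0 := by
      intro σ
      have h1 : B σ (f, g) = 0 := by
        have := congrArg (fun p => p.2 σ) hfg
        simpa [T] using this
      simp only [f', dif_pos (hbase σ)]
      simpa [B] using h1
    -- full points over a base face of dimension `d`
    have hconst : ∀ σ ∈ X0 α l u d, ∀ x ∈ reg α l u, tight α x = σ →
        dir α σ ≤ tie l (kap l x) → dir α σ ≤ tie u (mu u x) →
        f' σ (kap l x) = 0 ∧ g' σ (mu u x) = 0 := by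
      intro σ hσ x hx hxσ h1 h2
      have hag : ∀ x ∈ reg α l u, tight α x = σ → dir α σ ≤ tie l (kap l x) →
          dir α σ ≤ tie u (mu u x) → f' σ (kap l x) = g' σ (mu u x) := by
        intro x hx hxσ h1 h2
        refine hA (σ, kap l x, mu u x) ⟨x, hx, hxσ, rfl, rfl, ?_⟩
        show finrank ℝ (dir α σ ⊓ tie l (kap l x) ⊓ tie u (mu u x) : Submodule ℝ V) = d
        rw [inf_eq_left.2 h1, inf_eq_left.2 h2]
        exact hd0 ⟨σ, hσ⟩
      have h3 := cells_connected hI σ (f' σ) (g' σ) hag hx hxσ h1 h2 (hy0 ⟨σ, hσ⟩)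
        (hy0σ ⟨σ, hσ⟩) (hy0k ⟨σ, hσ⟩) (hy0m ⟨σ, hσ⟩)
      have h4 : f' σ (kap l x) = 0 := h3.trans (hB ⟨σ, hσ⟩)
      exact ⟨h4, (hag x hx hxσ h1 h2).symm.trans h4⟩
    have hf : ∀ z ∈ Xh α l u d, f' z.1 z.2 = 0 := by
      rintro ⟨σ, κ⟩ ⟨x, hx, hxσ, hxκ, hd⟩
      simp only at hxσ hxκ hd ⊢
      subst hxσ hxκ
      obtain ⟨y, hy, hyσ, hyκ, hle⟩ := refine_mu hx
      have hz : (tight α x, kap l x, mu u y) ∈ Xgh α l u d :=
        ⟨y, hy, hyσ, hyκ, rfl, by
          show finrank ℝ (dir α (tight α x) ⊓ tie l (kap l x) ⊓ tie u (mu u y) :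
            Submodule ℝ V) = d
          rw [inf_eq_left.2 hle]; exact hd⟩
      have hag := hA _ hz
      simp only at hag
      by_cases hg : (tight α x, mu u y) ∈ Xg α l u d
      · obtain ⟨y', _, _, _, hd'⟩ := hg
        simp only at hd'
        have hle2 : dir α (tight α x) ⊓ tie l (kap l x) ≤ dir α (tight α x) ⊓ tie u (mu u y) :=
          le_inf inf_le_left hle
        have heq := Submodule.eq_of_le_of_finrank_eq hle2 (by rw [hd, hd'])
        -- everything is full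
        have hfullk : dir α (tight α x) ≤ tie l (kap l x) := by
          intro v hv
          have hv' : v ∈ dir α (tight α y) := by rw [hyσ]; exact hv
          obtain ⟨a, b, ha, ha', hb, hb', hab⟩ := hI y hy v hv'
          rw [hyσ] at ha hb
          rw [hyκ] at ha'
          have hb2 : b ∈ dir α (tight α x) ⊓ tie l (kap l x) := by rw [heq]; exact ⟨hb, hb'⟩
          rw [hab]
          exact Submodule.add_mem _ ha' hb2.2
        have hfullm : dir α (tight α x) ≤ tie u (mu u y) := by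
          intro v hv
          exact hle ⟨hv, hfullk hv⟩
        have hσ : tight α x ∈ X0 α l u d :=
          ⟨x, hx, rfl, by rw [inf_eq_left.2 hfullk] at hd; exact hd⟩
        have := (hconst _ hσ y hy hyσ (by rw [hyκ]; exact hfullk) hfullm).1
        rw [hyκ] at this; exact this
      · rw [hag]
        simp only [g', dif_neg hg]
    have hg : ∀ z ∈ Xg α l u d, g' z.1 z.2 = 0 := by
      rintro ⟨σ, μ⟩ ⟨x, hx, hxσ, hxμ, hd⟩
      simp only at hxσ hxμ hd ⊢
      subst hxσ hxμ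
      obtain ⟨y, hy, hyσ, hyμ, hle⟩ := refine_kap hx
      have hz : (tight α x, kap l y, mu u x) ∈ Xgh α l u d :=
        ⟨y, hy, hyσ, rfl, hyμ, by
          show finrank ℝ (dir α (tight α x) ⊓ tie l (kap l y) ⊓ tie u (mu u x) :
            Submodule ℝ V) = d
          rw [inf_right_comm, inf_eq_left.2 hle]; exact hd⟩
      have hag := hA _ hz
      simp only at hag
      by_cases hf2 : (tight α x, kap l y) ∈ Xh α l u d
      · rw [← hag]
        exact hf _ hf2
      · rw [← hag]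
        simp only [f', dif_neg hf2]
    have hf0 : f = 0 := by
      funext z
      have := hf z.1 z.2
      simp only [f', Prod.mk.eta, Subtype.coe_eta, dif_pos z.2] at this
      exact this
    have hg0 : g = 0 := by
      funext z
      have := hg z.1 z.2
      simp only [g', Prod.mk.eta, Subtype.coe_eta, dif_pos z.2] at this
      exact this
    rw [hf0, hg0]; rfl
  have := LinearMap.finrank_le_finrank_of_injective hT
  rw [Module.finrank_prod, Module.finrank_prod, Module.finrank_fintype_fun_eq_card,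
    Module.finrank_fintype_fun_eq_card, Module.finrank_fintype_fun_eq_card,
    Module.finrank_fintype_fun_eq_card] at this
  rw [Nat.card_eq_fintype_card, Nat.card_eq_fintype_card, Nat.card_eq_fintype_card,
    Nat.card_eq_fintype_card]
  exact this

end top

end Pool.Agent.Helper19.Marked
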