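import Mathlib
import Pool.Agent.Helper19.Marked.StepCount

/-!
# One step: from the region between two envelopes to the region below their difference
-/

open Set Module Filter Topology

namespace Pool.Agent.Helper19.Marked

section lin

variable {V : Type*} [AddCommGroup V] [Module ℝ V] [FiniteDimensional ℝ V]

lemma finrank_inf_ker (S : Submodule ℝ V) (φ : V →ₗ[ℝ] ℝ) {e : V} (he : e ∈ S)
    (hφ : φ e ≠ 0) : finrank ℝ (S ⊓ LinearMap.ker φ : Submodule ℝ V) + 1 = finrank ℝ S := by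
  have h1 := LinearMap.finrank_range_add_finrank_ker (φ.domRestrict S)
  have h2 : LinearMap.range (φ.domRestrict S) = ⊤ := by
    rw [LinearMap.range_eq_top]
    apply LinearMap.surjective
    intro h0
    apply hφ
    have := congrArg (fun f => f ⟨e, he⟩) h0
    simpa using this
  have h3 : finrank ℝ (LinearMap.ker (φ.domRestrict S)) =
      finrank ℝ (S ⊓ LinearMap.ker φ : Submodule ℝ V) := by
    have : Submodule.map S.subtype (LinearMap.ker (φ.domRestrict S)) = S ⊓ LinearMap.ker φ := by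
      ext v
      simp only [Submodule.mem_map, LinearMap.mem_ker, LinearMap.domRestrict_apply,
        Submodule.subtype_apply, Subtype.exists, exists_and_left, exists_prop,
        Submodule.mem_inf]
      constructor
      · rintro ⟨a, h1, h2, rfl⟩; exact ⟨h2, h1⟩
      · rintro ⟨h1, h2⟩; exact ⟨v, h2, h1, rfl⟩
    rw [← this, Submodule.finrank_map_subtype_eq]
  rw [h2, finrank_top, Module.finrank_self, h3] at h1
  omega

end lin

variable {V : Type*} [AddCommGroup V] [Module ℝ V]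
variable {J K M : Type*}

/-- The system of the region between the envelopes. -/
def sysA (α : J → V →ᵃ[ℝ] ℝ) (l : K → V →ᵃ[ℝ] ℝ) (u : M → V →ᵃ[ℝ] ℝ) (s : V →ᵃ[ℝ] ℝ) :
    J ⊕ (K ⊕ M) → V →ᵃ[ℝ] ℝ :=
  Sum.elim α (Sum.elim (fun k => s - l k) (fun m => u m - s))

/-- The system of the region below the difference of the envelopes. -/
def sysB (α : J → V →ᵃ[ℝ] ℝ) (l : K → V →ᵃ[ℝ] ℝ) (u : M → V →ᵃ[ℝ] ℝ) (s : V →ᵃ[ℝ] ℝ) :
    J ⊕ (Unit ⊕ K × M) → V →ᵃ[ℝ] ℝ :=
  Sum.elim α (Sum.elim (fun _ => s) (fun km => u km.2 - l km.1 - s))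

/-- Directions in which upper and lower functionals in the patterns stay tied. -/
def tie2 (l : K → V →ᵃ[ℝ] ℝ) (u : M → V →ᵃ[ℝ] ℝ) (κ : Set K) (μ : Set M) :
    Submodule ℝ V where
  carrier := {v | ∀ k ∈ κ, ∀ m ∈ μ, (l k).linear v = (u m).linear v}
  add_mem' := by
    intro a b ha hb k hk k' hk'
    rw [map_add, map_add, ha k hk k' hk', hb k hk k' hk']
  zero_mem' := by intro k _ k' _; rw [map_zero, map_zero]
  smul_mem' := by
    intro c a ha k hk k' hk'
    rw [map_smul, map_smul, ha k hk k' hk']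

/-- Cells over the set where the envelopes meet. -/
def XW (α : J → V →ᵃ[ℝ] ℝ) (l : K → V →ᵃ[ℝ] ℝ) (u : M → V →ᵃ[ℝ] ℝ) (d : ℕ) :
    Set (Set J × Set K × Set M) :=
  {p | ∃ x ∈ sys α, (∃ k m, l k x = u m x) ∧ tight α x = p.1 ∧ kap l x = p.2.1 ∧
    mu u x = p.2.2 ∧ finrank ℝ (dir α p.1 ⊓ tie2 l u p.2.1 p.2.2 : Submodule ℝ V) = d}

/-- Encoding of tight sets of the first system. -/
def encA (σ : Set J) (κ : Set K) (μ : Set M) : Set (J ⊕ (K ⊕ M)) :=
  Sum.elim (· ∈ σ) (Sum.elim (· ∈ κ) (· ∈ μ))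

/-- Encoding of tight sets of the second system. -/
def encB (σ : Set J) (b : Prop) (κ : Set K) (μ : Set M) : Set (J ⊕ (Unit ⊕ K × M)) :=
  Sum.elim (· ∈ σ) (Sum.elim (fun _ => b) (fun km => km.1 ∈ κ ∧ km.2 ∈ μ))

@[simp] lemma encA_inl {σ : Set J} {κ : Set K} {μ : Set M} {j : J} :
    (Sum.inl j : J ⊕ (K ⊕ M)) ∈ encA σ κ μ ↔ j ∈ σ := Iff.rfl
@[simp] lemma encA_k {σ : Set J} {κ : Set K} {μ : Set M} {k : K} :
    (Sum.inr (Sum.inl k) : J ⊕ (K ⊕ M)) ∈ encA σ κ μ ↔ k ∈ κ := Iff.rfl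
@[simp] lemma encA_m {σ : Set J} {κ : Set K} {μ : Set M} {m : M} :
    (Sum.inr (Sum.inr m) : J ⊕ (K ⊕ M)) ∈ encA σ κ μ ↔ m ∈ μ := Iff.rfl
@[simp] lemma encB_inl {σ : Set J} {b : Prop} {κ : Set K} {μ : Set M} {j : J} :
    (Sum.inl j : J ⊕ (Unit ⊕ K × M)) ∈ encB σ b κ μ ↔ j ∈ σ := Iff.rfl
@[simp] lemma encB_u {σ : Set J} {b : Prop} {κ : Set K} {μ : Set M} {k : Unit} :
    (Sum.inr (Sum.inl k) : J ⊕ (Unit ⊕ K × M)) ∈ encB σ b κ μ ↔ b := Iff.rfl
@[simp] lemma encB_km {σ : Set J} {b : Prop} {κ : Set K} {μ : Set M} {km : K × M} :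
    (Sum.inr (Sum.inr km) : J ⊕ (Unit ⊕ K × M)) ∈ encB σ b κ μ ↔ km.1 ∈ κ ∧ km.2 ∈ μ := Iff.rfl

/-- Set extensionality for the two index types. -/
lemma extA {S T : Set (J ⊕ (K ⊕ M))} (h1 : ∀ j, Sum.inl j ∈ S ↔ Sum.inl j ∈ T)
    (h2 : ∀ k, Sum.inr (Sum.inl k) ∈ S ↔ Sum.inr (Sum.inl k) ∈ T)
    (h3 : ∀ m, Sum.inr (Sum.inr m) ∈ S ↔ Sum.inr (Sum.inr m) ∈ T) : S = T := by
  ext z; rcases z with j | k | m
  · exact h1 j
  · exact h2 k
  · exact h3 m

section dims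

variable {α : J → V →ᵃ[ℝ] ℝ} {l : K → V →ᵃ[ℝ] ℝ} {u : M → V →ᵃ[ℝ] ℝ} {s : V →ᵃ[ℝ] ℝ}

lemma dirA_mem {σ : Set J} {κ : Set K} {μ : Set M} {v : V} :
    v ∈ dir (sysA α l u s) (encA σ κ μ) ↔ v ∈ dir α σ ∧
      (∀ k ∈ κ, s.linear v = (l k).linear v) ∧ (∀ m ∈ μ, (u m).linear v = s.linear v) := by
  constructor
  · intro h
    refine ⟨fun j hj => h (Sum.inl j) hj, fun k hk => ?_, fun m hm => ?_⟩
    · have := h (Sum.inr (Sum.inl k)) hk
      simp only [sysA, Sum.elim_inr, Sum.elim_inl, AffineMap.sub_linear,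
        LinearMap.sub_apply] at this
      linarith
    · have := h (Sum.inr (Sum.inr m)) hm
      simp only [sysA, Sum.elim_inr, AffineMap.sub_linear, LinearMap.sub_apply] at this
      linarith
  · rintro ⟨h1, h2, h3⟩ z hz
    rcases z with j | k | m
    · exact h1 j hz
    · have := h2 k hz
      simp only [sysA, Sum.elim_inr, Sum.elim_inl, AffineMap.sub_linear, LinearMap.sub_apply]
      linarith
    · have := h3 m hz
      simp only [sysA, Sum.elim_inr, AffineMap.sub_linear, LinearMap.sub_apply]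
      linarith

lemma dirB_mem {σ : Set J} {b : Prop} {κ : Set K} {μ : Set M} {v : V} :
    v ∈ dir (sysB α l u s) (encB σ b κ μ) ↔ v ∈ dir α σ ∧ (b → s.linear v = 0) ∧
      (∀ k ∈ κ, ∀ m ∈ μ, (u m).linear v - (l k).linear v = s.linear v) := by
  constructor
  · intro h
    refine ⟨fun j hj => h (Sum.inl j) hj, fun hb => h (Sum.inr (Sum.inl ())) hb,
      fun k hk m hm => ?_⟩
    have := h (Sum.inr (Sum.inr (k, m))) ⟨hk, hm⟩
    simp only [sysB, Sum.elim_inr, AffineMap.sub_linear, LinearMap.sub_apply] at this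
    linarith
  · rintro ⟨h1, h2, h3⟩ z hz
    rcases z with j | k | km
    · exact h1 j hz
    · exact h2 hz
    · have := h3 km.1 hz.1 km.2 hz.2
      simp only [sysB, Sum.elim_inr, AffineMap.sub_linear, LinearMap.sub_apply]
      linarith

end dims

section main

variable [FiniteDimensional ℝ V]
variable {α : J → V →ᵃ[ℝ] ℝ} {l : K → V →ᵃ[ℝ] ℝ} {u : M → V →ᵃ[ℝ] ℝ} {s : V →ᵃ[ℝ] ℝ} {e : V}

omit [FiniteDimensional ℝ V] in
lemma dimA1 {σ : Set J} : dir (sysA α l u s) (encA σ ∅ ∅) = dir α σ := by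
  ext v; rw [dirA_mem]; simp

lemma dimA2 {σ : Set J} {κ : Set K} (hκ : κ.Nonempty)
    (hα : ∀ j, (α j).linear e = 0) (hl : ∀ k, (l k).linear e = 0) (hs : s.linear e = 1) :
    finrank ℝ (dir (sysA α l u s) (encA σ κ ∅)) + 1 =
      finrank ℝ (dir α σ ⊓ tie l κ : Submodule ℝ V) := by
  obtain ⟨k0, hk0⟩ := hκ
  have he : e ∈ dir α σ ⊓ tie l κ :=
    ⟨fun j _ => hα j, fun k _ k' _ => by rw [hl, hl]⟩
  rw [← finrank_inf_ker (dir α σ ⊓ tie l κ) (s.linear - (l k0).linear) he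
    (by rw [LinearMap.sub_apply, hs, hl]; norm_num)]
  have : dir (sysA α l u s) (encA σ κ ∅) =
      (dir α σ ⊓ tie l κ) ⊓ LinearMap.ker (s.linear - (l k0).linear) := by
    ext v
    rw [dirA_mem, Submodule.mem_inf, Submodule.mem_inf, LinearMap.mem_ker, LinearMap.sub_apply]
    constructor
    · rintro ⟨h1, h2, _⟩
      exact ⟨⟨h1, fun k hk k' hk' => (h2 k hk).symm.trans (h2 k' hk')⟩,
        sub_eq_zero.2 (h2 k0 hk0)⟩
    · rintro ⟨⟨h1, h2⟩, h3⟩
      exact ⟨h1, fun k hk => (sub_eq_zero.1 h3).trans (h2 k0 hk0 k hk), by simp⟩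
  rw [this]

lemma dimA3 {σ : Set J} {μ : Set M} (hμ : μ.Nonempty)
    (hα : ∀ j, (α j).linear e = 0) (hu : ∀ m, (u m).linear e = 0) (hs : s.linear e = 1) :
    finrank ℝ (dir (sysA α l u s) (encA σ ∅ μ)) + 1 =
      finrank ℝ (dir α σ ⊓ tie u μ : Submodule ℝ V) := by
  obtain ⟨m0, hm0⟩ := hμ
  have he : e ∈ dir α σ ⊓ tie u μ :=
    ⟨fun j _ => hα j, fun k _ k' _ => by rw [hu, hu]⟩
  rw [← finrank_inf_ker (dir α σ ⊓ tie u μ) (s.linear - (u m0).linear) he
    (by rw [LinearMap.sub_apply, hs, hu]; norm_num)]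
  have : dir (sysA α l u s) (encA σ ∅ μ) =
      (dir α σ ⊓ tie u μ) ⊓ LinearMap.ker (s.linear - (u m0).linear) := by
    ext v
    rw [dirA_mem, Submodule.mem_inf, Submodule.mem_inf, LinearMap.mem_ker, LinearMap.sub_apply]
    constructor
    · rintro ⟨h1, _, h2⟩
      exact ⟨⟨h1, fun k hk k' hk' => (h2 k hk).trans (h2 k' hk').symm⟩,
        sub_eq_zero.2 (h2 m0 hm0).symm⟩
    · rintro ⟨⟨h1, h2⟩, h3⟩
      exact ⟨h1, by simp, fun k hk => (h2 k hk m0 hm0).trans (sub_eq_zero.1 h3).symm⟩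
  rw [this]

lemma dimA4 {σ : Set J} {κ : Set K} {μ : Set M} (hκ : κ.Nonempty) (hμ : μ.Nonempty)
    (hα : ∀ j, (α j).linear e = 0) (hl : ∀ k, (l k).linear e = 0)
    (hu : ∀ m, (u m).linear e = 0) (hs : s.linear e = 1) :
    finrank ℝ (dir (sysA α l u s) (encA σ κ μ)) + 1 =
      finrank ℝ (dir α σ ⊓ tie2 l u κ μ : Submodule ℝ V) := by
  obtain ⟨k0, hk0⟩ := hκ
  obtain ⟨m0, hm0⟩ := hμ
  have he : e ∈ dir α σ ⊓ tie2 l u κ μ :=
    ⟨fun j _ => hα j, fun k _ k' _ => by rw [hl, hu]⟩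
  rw [← finrank_inf_ker (dir α σ ⊓ tie2 l u κ μ) (s.linear - (l k0).linear) he
    (by rw [LinearMap.sub_apply, hs, hl]; norm_num)]
  have : dir (sysA α l u s) (encA σ κ μ) =
      (dir α σ ⊓ tie2 l u κ μ) ⊓ LinearMap.ker (s.linear - (l k0).linear) := by
    ext v
    rw [dirA_mem, Submodule.mem_inf, Submodule.mem_inf, LinearMap.mem_ker, LinearMap.sub_apply]
    constructor
    · rintro ⟨h1, h2, h3⟩
      exact ⟨⟨h1, fun k hk m hm => (h2 k hk).symm.trans (h3 m hm).symm⟩,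
        sub_eq_zero.2 (h2 k0 hk0)⟩
    · rintro ⟨⟨h1, h2⟩, h3⟩
      have h4 := sub_eq_zero.1 h3
      refine ⟨h1, fun k hk => ?_, fun m hm => ?_⟩
      · rw [h4, h2 k0 hk0 m0 hm0, h2 k hk m0 hm0]
      · rw [h4, h2 k0 hk0 m hm]
  rw [this]

omit [FiniteDimensional ℝ V] in
lemma dimB1 {σ : Set J} : dir (sysB α l u s) (encB σ False ∅ ∅) = dir α σ := by
  ext v; rw [dirB_mem]; simp

lemma dimB2 {σ : Set J} (hα : ∀ j, (α j).linear e = 0) (hs : s.linear e = 1) :
    finrank ℝ (dir (sysB α l u s) (encB σ True ∅ ∅)) + 1 = finrank ℝ (dir α σ) := by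
  have he : e ∈ dir α σ := fun j _ => hα j
  rw [← finrank_inf_ker (dir α σ) s.linear he (by rw [hs]; norm_num)]
  have : dir (sysB α l u s) (encB σ True ∅ ∅) = dir α σ ⊓ LinearMap.ker s.linear := by
    ext v
    rw [dirB_mem, Submodule.mem_inf, LinearMap.mem_ker]
    simp
  rw [this]

lemma dimB3 {σ : Set J} {κ : Set K} {μ : Set M} (hκ : κ.Nonempty) (hμ : μ.Nonempty)
    (hα : ∀ j, (α j).linear e = 0) (hl : ∀ k, (l k).linear e = 0)
    (hu : ∀ m, (u m).linear e = 0) (hs : s.linear e = 1) :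
    finrank ℝ (dir (sysB α l u s) (encB σ False κ μ)) + 1 =
      finrank ℝ (dir α σ ⊓ tie l κ ⊓ tie u μ : Submodule ℝ V) := by
  obtain ⟨k0, hk0⟩ := hκ
  obtain ⟨m0, hm0⟩ := hμ
  have he : e ∈ dir α σ ⊓ tie l κ ⊓ tie u μ :=
    ⟨⟨fun j _ => hα j, fun k _ k' _ => by rw [hl, hl]⟩, fun k _ k' _ => by rw [hu, hu]⟩
  rw [← finrank_inf_ker (dir α σ ⊓ tie l κ ⊓ tie u μ)
    (s.linear - ((u m0).linear - (l k0).linear)) he
    (by rw [LinearMap.sub_apply, LinearMap.sub_apply, hs, hl, hu]; norm_num)]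
  have : dir (sysB α l u s) (encB σ False κ μ) =
      (dir α σ ⊓ tie l κ ⊓ tie u μ) ⊓
        LinearMap.ker (s.linear - ((u m0).linear - (l k0).linear)) := by
    ext v
    rw [dirB_mem, Submodule.mem_inf, Submodule.mem_inf, Submodule.mem_inf, LinearMap.mem_ker,
      LinearMap.sub_apply, LinearMap.sub_apply]
    constructor
    · rintro ⟨h1, _, h3⟩
      refine ⟨⟨⟨h1, fun k hk k' hk' => ?_⟩, fun m hm m' hm' => ?_⟩, ?_⟩
      · have := h3 k hk m0 hm0; have := h3 k' hk' m0 hm0; linarith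
      · have := h3 k0 hk0 m hm; have := h3 k0 hk0 m' hm'; linarith
      · have := h3 k0 hk0 m0 hm0; linarith
    · rintro ⟨⟨⟨h1, h2⟩, h3⟩, h4⟩
      refine ⟨h1, by simp, fun k hk m hm => ?_⟩
      have := h2 k hk k0 hk0
      have := h3 m hm m0 hm0
      linarith
  rw [this]

lemma dimB4 {σ : Set J} {κ : Set K} {μ : Set M}
    (hα : ∀ j, (α j).linear e = 0) (hl : ∀ k, (l k).linear e = 0)
    (hu : ∀ m, (u m).linear e = 0) (hs : s.linear e = 1) :
    finrank ℝ (dir (sysB α l u s) (encB σ True κ μ)) + 1 =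
      finrank ℝ (dir α σ ⊓ tie2 l u κ μ : Submodule ℝ V) := by
  have he : e ∈ dir α σ ⊓ tie2 l u κ μ :=
    ⟨fun j _ => hα j, fun k _ k' _ => by rw [hl, hu]⟩
  rw [← finrank_inf_ker (dir α σ ⊓ tie2 l u κ μ) s.linear he (by rw [hs]; norm_num)]
  have : dir (sysB α l u s) (encB σ True κ μ) =
      (dir α σ ⊓ tie2 l u κ μ) ⊓ LinearMap.ker s.linear := by
    ext v
    rw [dirB_mem, Submodule.mem_inf, Submodule.mem_inf, LinearMap.mem_ker]
    constructor
    · rintro ⟨h1, h2, h3⟩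
      refine ⟨⟨h1, fun k hk m hm => ?_⟩, h2 trivial⟩
      have := h3 k hk m hm
      have := h2 trivial
      linarith
    · rintro ⟨⟨h1, h2⟩, h3⟩
      refine ⟨h1, fun _ => h3, fun k hk m hm => ?_⟩
      have := h2 k hk m hm
      linarith
  rw [this]

end main

section points

variable {α : J → V →ᵃ[ℝ] ℝ} {l : K → V →ᵃ[ℝ] ℝ} {u : M → V →ᵃ[ℝ] ℝ} {s : V →ᵃ[ℝ] ℝ} {e : V}

lemma tightA (x : V) : tight (sysA α l u s) x =
    encA (tight α x) {k | l k x = s x} {m | u m x = s x} := by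
  apply extA
  · intro j; rfl
  · intro k
    simp only [tight, sysA, Set.mem_ofPred_eq, Sum.elim_inr, Sum.elim_inl, encA_k]
    constructor
    · intro h; have h' : s x - l k x = 0 := h
      linarith
    · intro h; show s x - l k x = 0
      linarith
  · intro m
    simp only [tight, sysA, Set.mem_ofPred_eq, Sum.elim_inr, encA_m]
    constructor
    · intro h; have h' : u m x - s x = 0 := h
      linarith
    · intro h; show u m x - s x = 0
      linarith

lemma memA {x : V} : x ∈ sys (sysA α l u s) ↔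
    x ∈ sys α ∧ (∀ k, l k x ≤ s x) ∧ (∀ m, s x ≤ u m x) := by
  constructor
  · intro h
    refine ⟨fun j => h (Sum.inl j), fun k => ?_, fun m => ?_⟩
    · have h' : 0 ≤ s x - l k x := h (Sum.inr (Sum.inl k))
      linarith
    · have h' : 0 ≤ u m x - s x := h (Sum.inr (Sum.inr m))
      linarith
  · rintro ⟨h1, h2, h3⟩ z
    rcases z with j | k | m
    · exact h1 j
    · show 0 ≤ s x - l k x
      linarith [h2 k]
    · show 0 ≤ u m x - s x
      linarith [h3 m]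

lemma memB {x : V} : x ∈ sys (sysB α l u s) ↔
    x ∈ sys α ∧ 0 ≤ s x ∧ (∀ k m, s x ≤ u m x - l k x) := by
  constructor
  · intro h
    refine ⟨fun j => h (Sum.inl j), h (Sum.inr (Sum.inl ())), fun k m => ?_⟩
    have h' : 0 ≤ u m x - l k x - s x := h (Sum.inr (Sum.inr (k, m)))
    linarith
  · rintro ⟨h1, h2, h3⟩ z
    rcases z with j | k | ⟨k, m⟩
    · exact h1 j
    · exact h2
    · show 0 ≤ u m x - l k x - s x
      linarith [h3 k m]

lemma kap_tied {x : V} (h : ∀ k, l k x ≤ s x) (hex : ∃ k, l k x = s x) :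
    {k | l k x = s x} = kap l x := by
  obtain ⟨k0, hk0⟩ := hex
  ext k
  constructor
  · intro hk k'
    rw [show l k x = s x from hk]; exact h k'
  · intro hk
    exact le_antisymm (h k) (hk0 ▸ hk k0)

lemma mu_tied {x : V} (h : ∀ m, s x ≤ u m x) (hex : ∃ m, u m x = s x) :
    {m | u m x = s x} = mu u x := by
  obtain ⟨k0, hk0⟩ := hex
  ext k
  constructor
  · intro hk k'
    rw [show u k x = s x from hk]; exact h k'
  · intro hk
    exact le_antisymm (hk0 ▸ hk k0) (h k)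

variable [FiniteDimensional ℝ V]

lemma tightsA_sub [Finite K] [Finite M] [Nonempty K] [Nonempty M]
    (hα : ∀ j, (α j).linear e = 0) (hl : ∀ k, (l k).linear e = 0)
    (hu : ∀ m, (u m).linear e = 0) (hs : s.linear e = 1) (i : ℕ) :
    tights (sysA α l u s) i ⊆
      (((fun σ => encA σ ∅ ∅) '' X0 α l u i) ∪
        ((fun p : Set J × Set K => encA p.1 p.2 ∅) '' Xh α l u (i + 1))) ∪
      (((fun p : Set J × Set M => encA p.1 ∅ p.2) '' Xg α l u (i + 1)) ∪
        ((fun p : Set J × Set K × Set M => encA p.1 p.2.1 p.2.2) '' XW α l u (i + 1))) := by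
  rintro T ⟨⟨x, hx, rfl⟩, hd⟩
  rw [memA] at hx
  obtain ⟨h1, h2, h3⟩ := hx
  rw [tightA] at hd ⊢
  by_cases hk : ∃ k, l k x = s x <;> by_cases hm : ∃ m, u m x = s x
  · -- both
    right; right
    rw [kap_tied h2 hk, mu_tied h3 hm] at hd ⊢
    have := dimA4 (κ := kap l x) (μ := mu u x) (σ := tight α x)
      (kap_nonempty l x) (mu_nonempty u x) hα hl hu hs
    rw [hd] at this
    obtain ⟨k, hk⟩ := hk
    obtain ⟨m, hm⟩ := hm
    exact ⟨(tight α x, kap l x, mu u x), ⟨x, h1, ⟨k, m, hk.trans hm.symm⟩, rfl, rfl, rfl,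
      this.symm⟩, rfl⟩
  · left; right
    push Not at hm
    have hreg : x ∈ reg α l u := ⟨h1, fun k m => (h2 k).trans_lt
      (lt_of_le_of_ne (h3 m) (hm m).symm)⟩
    have e1 : {m | u m x = s x} = ∅ := by
      ext m; simp only [Set.mem_ofPred_eq, Set.mem_empty_iff_false, iff_false]; exact hm m
    rw [kap_tied h2 hk, e1] at hd ⊢
    have := dimA2 (κ := kap l x) (u := u) (σ := tight α x) (kap_nonempty l x) hα hl hs
    rw [hd] at this
    exact ⟨(tight α x, kap l x), ⟨x, hreg, rfl, rfl, this.symm⟩, rfl⟩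
  · right; left
    push Not at hk
    have hreg : x ∈ reg α l u := ⟨h1, fun k m =>
      (lt_of_le_of_ne (h2 k) (hk k)).trans_le (h3 m)⟩
    have e1 : {k | l k x = s x} = ∅ := by
      ext m; simp only [Set.mem_ofPred_eq, Set.mem_empty_iff_false, iff_false]; exact hk m
    rw [mu_tied h3 hm, e1] at hd ⊢
    have := dimA3 (μ := mu u x) (l := l) (σ := tight α x) (mu_nonempty u x) hα hu hs
    rw [hd] at this
    exact ⟨(tight α x, mu u x), ⟨x, hreg, rfl, rfl, this.symm⟩, rfl⟩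
  · left; left
    push Not at hk hm
    have hreg : x ∈ reg α l u := ⟨h1, fun k m =>
      (lt_of_le_of_ne (h2 k) (hk k)).trans_le (h3 m)⟩
    have e1 : {k | l k x = s x} = ∅ := by
      ext m; simp only [Set.mem_ofPred_eq, Set.mem_empty_iff_false, iff_false]; exact hk m
    have e2 : {m | u m x = s x} = ∅ := by
      ext m; simp only [Set.mem_ofPred_eq, Set.mem_empty_iff_false, iff_false]; exact hm m
    rw [e1, e2] at hd ⊢
    rw [dimA1] at hd
    exact ⟨tight α x, ⟨x, hreg, rfl, hd⟩, rfl⟩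

end points

end Pool.Agent.Helper19.Marked
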