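import Mathlib
import Pool.Agent.Helper19.Marked.StepMain

/-!
# One step: the inequality between face numbers
-/

open Set Module Filter Topology

namespace Pool.Agent.Helper19.Marked

variable {V : Type*} [AddCommGroup V] [Module ℝ V]
variable {J K M : Type*}
variable {α : J → V →ᵃ[ℝ] ℝ} {l : K → V →ᵃ[ℝ] ℝ} {u : M → V →ᵃ[ℝ] ℝ} {s : V →ᵃ[ℝ] ℝ} {e : V}

lemma tightB {x : V} {b : Prop} {κ : Set K} {μ : Set M} (hb : s x = 0 ↔ b)
    (hkm : ∀ k m, u m x - l k x = s x ↔ k ∈ κ ∧ m ∈ μ) :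
    tight (sysB α l u s) x = encB (tight α x) b κ μ := by
  ext z
  rcases z with j | k | ⟨k, m⟩
  · rfl
  · exact hb
  · rw [encB_km, ← hkm k m]
    constructor
    · intro h; have h' : u m x - l k x - s x = 0 := h
      linarith
    · intro h; show u m x - l k x - s x = 0
      linarith

lemma aff_e {β : V →ᵃ[ℝ] ℝ} (h : β.linear e = 0) (x : V) (t : ℝ) : β (x + t • e) = β x := by
  rw [aff_add_smul, h, mul_zero, add_zero]

lemma tight_e (hα : ∀ j, (α j).linear e = 0) (x : V) (t : ℝ) :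
    tight α (x + t • e) = tight α x := by
  ext j
  show α j (x + t • e) = 0 ↔ α j x = 0
  rw [aff_e (hα j)]

lemma sys_e (hα : ∀ j, (α j).linear e = 0) {x : V} (hx : x ∈ sys α) (t : ℝ) :
    x + t • e ∈ sys α := by
  intro j
  rw [aff_e (hα j)]; exact hx j

/-- Changing the last coordinate to a prescribed value. -/
lemma exists_s (hα : ∀ j, (α j).linear e = 0) (hl : ∀ k, (l k).linear e = 0)
    (hu : ∀ m, (u m).linear e = 0) (hs : s.linear e = 1) {x : V} (hx : x ∈ sys α) (c : ℝ) :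
    ∃ y ∈ sys α, tight α y = tight α x ∧ (∀ k, l k y = l k x) ∧ (∀ m, u m y = u m x) ∧
      s y = c := by
  refine ⟨x + (c - s x) • e, sys_e hα hx _, tight_e hα _ _, fun k => aff_e (hl k) _ _,
    fun m => aff_e (hu m) _ _, ?_⟩
  rw [aff_add_smul, hs]; ring

lemma encB_eq {σ σ' : Set J} {b b' : Prop} {κ κ' : Set K} {μ μ' : Set M}
    (h : encB σ b κ μ = encB σ' b' κ' μ') :
    σ = σ' ∧ (b ↔ b') ∧ ∀ k m, (k ∈ κ ∧ m ∈ μ) ↔ (k ∈ κ' ∧ m ∈ μ') := by
  refine ⟨?_, ?_, ?_⟩
  · ext j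
    have := Set.ext_iff.1 h (Sum.inl j)
    simpa using this
  · have := Set.ext_iff.1 h (Sum.inr (Sum.inl ()))
    simpa using this
  · intro k m
    have := Set.ext_iff.1 h (Sum.inr (Sum.inr (k, m)))
    simpa using this

lemma prod_eq {κ κ' : Set K} {μ μ' : Set M} (hκ : κ.Nonempty) (hμ : μ.Nonempty)
    (h : ∀ k m, (k ∈ κ ∧ m ∈ μ) ↔ (k ∈ κ' ∧ m ∈ μ')) : κ = κ' ∧ μ = μ' := by
  obtain ⟨k0, hk0⟩ := hκ
  obtain ⟨m0, hm0⟩ := hμ
  have h0 := (h k0 m0).1 ⟨hk0, hm0⟩
  constructor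
  · ext k
    constructor
    · intro hk; exact ((h k m0).1 ⟨hk, hm0⟩).1
    · intro hk; exact ((h k m0).2 ⟨hk, h0.2⟩).1
  · ext m
    constructor
    · intro hm; exact ((h k0 m).1 ⟨hk0, hm⟩).2
    · intro hm; exact ((h k0 m).2 ⟨h0.1, hm⟩).2

lemma pair_iff {x : V} {k0 : K} {m0 : M} (hk0 : k0 ∈ kap l x) (hm0 : m0 ∈ mu u x) (k : K) (m : M) :
    u m x - l k x = u m0 x - l k0 x ↔ k ∈ kap l x ∧ m ∈ mu u x := by
  have h1 := hk0 k
  have h2 := hm0 m
  constructor
  · intro h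
    have e1 : l k x = l k0 x := by linarith
    have e2 : u m x = u m0 x := by linarith
    exact ⟨fun k' => by rw [e1]; exact hk0 k', fun m' => by rw [e2]; exact hm0 m'⟩
  · rintro ⟨h3, h4⟩
    have e1 : l k x = l k0 x := le_antisymm h1 (h3 k0)
    have e2 : u m x = u m0 x := le_antisymm (h4 m0) h2
    rw [e1, e2]

variable [FiniteDimensional ℝ V]

lemma tightsB_sup [Finite K] [Finite M] [Nonempty K] [Nonempty M]
    (hB : ∀ x ∈ sys α, ∀ k m, l k x ≤ u m x)
    (hα : ∀ j, (α j).linear e = 0) (hl : ∀ k, (l k).linear e = 0)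
    (hu : ∀ m, (u m).linear e = 0) (hs : s.linear e = 1) (i : ℕ) :
      (((fun σ => encB σ False ∅ ∅) '' X0 α l u i) ∪
        ((fun σ => encB σ True ∅ ∅) '' X0 α l u (i + 1))) ∪
      (((fun p : Set J × Set K × Set M => encB p.1 False p.2.1 p.2.2) '' Xgh α l u (i + 1)) ∪
        ((fun p : Set J × Set K × Set M => encB p.1 True p.2.1 p.2.2) '' XW α l u (i + 1))) ⊆
      tights (sysB α l u s) i := by
  rintro T ((⟨σ, ⟨x, hx, rfl, hd⟩, rfl⟩ | ⟨σ, ⟨x, hx, rfl, hd⟩, rfl⟩) |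
    (⟨⟨σ, κ, μ⟩, ⟨x, hx, hσ, hκ, hμ, hd⟩, rfl⟩ | ⟨⟨σ, κ, μ⟩, ⟨x, hx, ⟨k1, m1, hkm1⟩, hσ, hκ, hμ, hd⟩, rfl⟩))
  · obtain ⟨k0, hk0⟩ := kap_nonempty l x
    obtain ⟨m0, hm0⟩ := mu_nonempty u x
    have hpos : 0 < u m0 x - l k0 x := sub_pos.2 (hx.2 k0 m0)
    obtain ⟨y, hy, hyt, hyk, hym, hys⟩ := exists_s hα hl hu hs hx.1 ((u m0 x - l k0 x) / 2)
    have hlt : ∀ k m, s y < u m y - l k y := by
      intro k m
      rw [hyk, hym, hys]
      have := hk0 k
      have := hm0 m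
      linarith
    refine ⟨⟨y, memB.2 ⟨hy, by rw [hys]; linarith, fun k m => (hlt k m).le⟩, ?_⟩, ?_⟩
    · rw [tightB (b := False) (κ := ∅) (μ := ∅), hyt]
      · rw [hys]; constructor
        · intro h; linarith
        · exact False.elim
      · intro k m
        constructor
        · intro h; exact absurd h (hlt k m).ne'
        · rintro ⟨h, _⟩; exact absurd h (Set.notMem_empty _)
    · rw [dimB1]; exact hd
  · obtain ⟨y, hy, hyt, hyk, hym, hys⟩ := exists_s hα hl hu hs hx.1 0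
    have hlt : ∀ k m, s y < u m y - l k y := by
      intro k m
      rw [hyk, hym, hys]
      exact sub_pos.2 (hx.2 k m)
    refine ⟨⟨y, memB.2 ⟨hy, by rw [hys], fun k m => (hlt k m).le⟩, ?_⟩, ?_⟩
    · rw [tightB (b := True) (κ := ∅) (μ := ∅), hyt]
      · rw [hys]; simp
      · intro k m
        constructor
        · intro h; exact absurd h (hlt k m).ne'
        · rintro ⟨h, _⟩; exact absurd h (Set.notMem_empty _)
    · have := dimB2 (l := l) (u := u) (σ := tight α x) hα hs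
      rw [hd] at this
      show finrank ℝ (dir (sysB α l u s) (encB (tight α x) True ∅ ∅)) = i
      omega
  · simp only at hσ hκ hμ hd ⊢
    subst hσ hκ hμ
    obtain ⟨k0, hk0⟩ := kap_nonempty l x
    obtain ⟨m0, hm0⟩ := mu_nonempty u x
    have hpos : 0 < u m0 x - l k0 x := sub_pos.2 (hx.2 k0 m0)
    obtain ⟨y, hy, hyt, hyk, hym, hys⟩ := exists_s hα hl hu hs hx.1 (u m0 x - l k0 x)
    refine ⟨⟨y, memB.2 ⟨hy, by rw [hys]; exact hpos.le, fun k m => ?_⟩, ?_⟩, ?_⟩
    · rw [hyk, hym, hys]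
      have := hk0 k
      have := hm0 m
      linarith
    · rw [tightB (b := False) (κ := kap l x) (μ := mu u x), hyt]
      · rw [hys]; constructor
        · intro h; linarith
        · exact False.elim
      · intro k m
        rw [hyk, hym, hys]
        exact pair_iff hk0 hm0 k m
    · have := dimB3 (s := s) (σ := tight α x) (kap_nonempty l x) (mu_nonempty u x) hα hl hu hs
      rw [hd] at this
      omega
  · simp only at hσ hκ hμ hd ⊢
    subst hσ hκ hμ
    obtain ⟨k0, hk0⟩ := kap_nonempty l x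
    obtain ⟨m0, hm0⟩ := mu_nonempty u x
    have hz : u m0 x - l k0 x = 0 := by
      have h1 := hB x hx k0 m0
      have h2 := hk0 k1
      have h3 := hm0 m1
      linarith
    obtain ⟨y, hy, hyt, hyk, hym, hys⟩ := exists_s hα hl hu hs hx 0
    refine ⟨⟨y, memB.2 ⟨hy, by rw [hys], fun k m => ?_⟩, ?_⟩, ?_⟩
    · rw [hyk, hym, hys]
      exact sub_nonneg.2 (hB x hx k m)
    · rw [tightB (b := True) (κ := kap l x) (μ := mu u x), hyt]
      · rw [hys]; simp
      · intro k m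
        rw [hyk, hym, hys, ← hz]
        exact pair_iff hk0 hm0 k m
    · have := dimB4 (s := s) (κ := kap l x) (μ := mu u x) (σ := tight α x) hα hl hu hs
      rw [hd] at this
      omega

section count

variable [TopologicalSpace V] [IsTopologicalAddGroup V] [ContinuousSMul ℝ V] [T2Space V]
variable [Finite J] [Finite K] [Finite M]

/-- The step inequality for tight sets. -/
theorem step_tights [Nonempty K] [Nonempty M]
    (hB : ∀ x ∈ sys α, ∀ k m, l k x ≤ u m x) (hI : Indep α l u)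
    (hα : ∀ j, (α j).linear e = 0) (hl : ∀ k, (l k).linear e = 0)
    (hu : ∀ m, (u m).linear e = 0) (hs : s.linear e = 1) (i : ℕ) :
    (tights (sysA α l u s) i).ncard ≤ (tights (sysB α l u s) i).ncard := by
  classical
  have hA := Set.ncard_le_ncard (tightsA_sub (α := α) (l := l) (u := u) (s := s) hα hl hu hs i)
    (Set.toFinite _)
  have hBs := Set.ncard_le_ncard (tightsB_sup (α := α) (l := l) (u := u) (s := s)
    hB hα hl hu hs i) (Set.toFinite _)
  have hcount := count_cells hI (i + 1)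
  rw [Nat.card_coe_set_eq, Nat.card_coe_set_eq, Nat.card_coe_set_eq, Nat.card_coe_set_eq]
    at hcount
  -- upper bound for the first
  have h1 := Set.ncard_union_le
    (((fun σ => encA σ ∅ ∅) '' X0 α l u i) ∪
        ((fun p : Set J × Set K => encA p.1 p.2 (∅ : Set M)) '' Xh α l u (i + 1)))
    (((fun p : Set J × Set M => encA p.1 (∅ : Set K) p.2) '' Xg α l u (i + 1)) ∪
        ((fun p : Set J × Set K × Set M => encA p.1 p.2.1 p.2.2) '' XW α l u (i + 1)))
  have h2 := Set.ncard_union_le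
    ((fun σ => encA σ (∅ : Set K) (∅ : Set M)) '' X0 α l u i)
        ((fun p : Set J × Set K => encA p.1 p.2 (∅ : Set M)) '' Xh α l u (i + 1))
  have h3 := Set.ncard_union_le
    ((fun p : Set J × Set M => encA p.1 (∅ : Set K) p.2) '' Xg α l u (i + 1))
        ((fun p : Set J × Set K × Set M => encA p.1 p.2.1 p.2.2) '' XW α l u (i + 1))
  have i1 : ((fun σ => encA σ (∅ : Set K) (∅ : Set M)) '' X0 α l u i).ncard ≤
      (X0 α l u i).ncard := Set.ncard_image_le (Set.toFinite _)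
  have i2 : ((fun p : Set J × Set K => encA p.1 p.2 (∅ : Set M)) '' Xh α l u (i + 1)).ncard ≤
      (Xh α l u (i + 1)).ncard := Set.ncard_image_le (Set.toFinite _)
  have i3 : ((fun p : Set J × Set M => encA p.1 (∅ : Set K) p.2) '' Xg α l u (i + 1)).ncard ≤
      (Xg α l u (i + 1)).ncard := Set.ncard_image_le (Set.toFinite _)
  have i4 : ((fun p : Set J × Set K × Set M => encA p.1 p.2.1 p.2.2) ''
      XW α l u (i + 1)).ncard ≤ (XW α l u (i + 1)).ncard := Set.ncard_image_le (Set.toFinite _)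
  -- exact value for the second
  have hne : ∀ p ∈ Xgh α l u (i + 1), p.2.1.Nonempty ∧ p.2.2.Nonempty := by
    rintro p ⟨x, _, _, h1, h2, _⟩
    rw [← h1, ← h2]; exact ⟨kap_nonempty l x, mu_nonempty u x⟩
  have hneW : ∀ p ∈ XW α l u (i + 1), p.2.1.Nonempty ∧ p.2.2.Nonempty := by
    rintro p ⟨x, _, _, _, h1, h2, _⟩
    rw [← h1, ← h2]; exact ⟨kap_nonempty l x, mu_nonempty u x⟩
  have j1 : ((fun σ => encB σ False (∅ : Set K) (∅ : Set M)) '' X0 α l u i).ncard =
      (X0 α l u i).ncard := by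
    apply Set.ncard_image_of_injOn
    intro a _ b _ h
    exact (encB_eq h).1
  have j2 : ((fun σ => encB σ True (∅ : Set K) (∅ : Set M)) '' X0 α l u (i + 1)).ncard =
      (X0 α l u (i + 1)).ncard := by
    apply Set.ncard_image_of_injOn
    intro a _ b _ h
    exact (encB_eq h).1
  have j3 : ((fun p : Set J × Set K × Set M => encB p.1 False p.2.1 p.2.2) ''
      Xgh α l u (i + 1)).ncard = (Xgh α l u (i + 1)).ncard := by
    apply Set.ncard_image_of_injOn
    rintro ⟨a1, a2, a3⟩ ha ⟨b1, b2, b3⟩ hb h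
    obtain ⟨h1, _, h3⟩ := encB_eq h
    obtain ⟨h4, h5⟩ := prod_eq (hne _ ha).1 (hne _ ha).2 h3
    simp only at h1 h4 h5
    rw [h1, h4, h5]
  have j4 : ((fun p : Set J × Set K × Set M => encB p.1 True p.2.1 p.2.2) ''
      XW α l u (i + 1)).ncard = (XW α l u (i + 1)).ncard := by
    apply Set.ncard_image_of_injOn
    rintro ⟨a1, a2, a3⟩ ha ⟨b1, b2, b3⟩ hb h
    obtain ⟨h1, _, h3⟩ := encB_eq h
    obtain ⟨h4, h5⟩ := prod_eq (hneW _ ha).1 (hneW _ ha).2 h3
    simp only at h1 h4 h5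
    rw [h1, h4, h5]
  have d1 : Disjoint ((fun σ => encB σ False (∅ : Set K) (∅ : Set M)) '' X0 α l u i)
      ((fun σ => encB σ True (∅ : Set K) (∅ : Set M)) '' X0 α l u (i + 1)) := by
    rw [Set.disjoint_left]
    rintro _ ⟨a, _, rfl⟩ ⟨b, _, h⟩
    exact (encB_eq h).2.1.1 trivial
  have d2 : Disjoint ((fun p : Set J × Set K × Set M => encB p.1 False p.2.1 p.2.2) ''
      Xgh α l u (i + 1)) ((fun p : Set J × Set K × Set M => encB p.1 True p.2.1 p.2.2) ''
      XW α l u (i + 1)) := by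
    rw [Set.disjoint_left]
    rintro _ ⟨a, _, rfl⟩ ⟨b, _, h⟩
    exact (encB_eq h).2.1.1 trivial
  have d3 : Disjoint (((fun σ => encB σ False (∅ : Set K) (∅ : Set M)) '' X0 α l u i) ∪
      ((fun σ => encB σ True (∅ : Set K) (∅ : Set M)) '' X0 α l u (i + 1)))
      (((fun p : Set J × Set K × Set M => encB p.1 False p.2.1 p.2.2) '' Xgh α l u (i + 1)) ∪
        ((fun p : Set J × Set K × Set M => encB p.1 True p.2.1 p.2.2) '' XW α l u (i + 1))) := by
    have hemp : ∀ (σ σ' : Set J) (b b' : Prop) (κ : Set K) (μ : Set M), κ.Nonempty →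
        μ.Nonempty → encB σ b κ μ = encB σ' b' ∅ ∅ → False := by
      rintro σ σ' b b' κ μ ⟨k, hk⟩ ⟨m, hm⟩ h
      have := ((encB_eq h).2.2 k m).1 ⟨hk, hm⟩
      exact this.1
    rw [Set.disjoint_left]
    rintro _ (⟨a, _, rfl⟩ | ⟨a, _, rfl⟩) (⟨b, hb, h⟩ | ⟨b, hb, h⟩)
    · exact hemp _ _ _ _ _ _ (hne b hb).1 (hne b hb).2 h
    · exact hemp _ _ _ _ _ _ (hneW b hb).1 (hneW b hb).2 h
    · exact hemp _ _ _ _ _ _ (hne b hb).1 (hne b hb).2 h
    · exact hemp _ _ _ _ _ _ (hneW b hb).1 (hneW b hb).2 h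
  rw [Set.ncard_union_eq d3 (Set.toFinite _) (Set.toFinite _),
    Set.ncard_union_eq d1 (Set.toFinite _) (Set.toFinite _),
    Set.ncard_union_eq d2 (Set.toFinite _) (Set.toFinite _), j1, j2, j3, j4] at hBs
  omega

/-- The step inequality for numbers of faces. -/
theorem step_faces [Nonempty K] [Nonempty M]
    (hB : ∀ x ∈ sys α, ∀ k m, l k x ≤ u m x) (hI : Indep α l u)
    (hα : ∀ j, (α j).linear e = 0) (hl : ∀ k, (l k).linear e = 0)
    (hu : ∀ m, (u m).linear e = 0) (hs : s.linear e = 1) (i : ℕ) :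
    (faces (sys (sysA α l u s)) i).encard ≤ (faces (sys (sysB α l u s)) i).encard := by
  rw [encard_faces_sys, encard_faces_sys]
  rw [← Set.Finite.cast_ncard_eq (Set.toFinite (tights (sysA α l u s) i)),
    ← Set.Finite.cast_ncard_eq (Set.toFinite (tights (sysB α l u s) i))]
  exact_mod_cast step_tights hB hI hα hl hu hs i

end count

end Pool.Agent.Helper19.Marked
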