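import Mathlib
import Pool.Agent.Helper19.Marked.StepFinal

/-!
# Marked chain-order polytopes of lower sets and the single step
-/

open Set Module

namespace Pool.Agent.Helper19.Marked

variable {P : Type*}

/-- The unmarked elements. -/
abbrev Qt (A : Set P) := {p : P // p ∉ A}

section val

variable {A : Set P} (lam : A → ℝ)

open Classical in
/-- Value at an element of `P`: the marking on `A`, the coordinate outside. -/
noncomputable def val (b : P) : (Qt A → ℝ) →ᵃ[ℝ] ℝ :=
  if h : b ∈ A then AffineMap.const ℝ _ (lam ⟨b, h⟩)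
  else (LinearMap.proj (⟨b, h⟩ : Qt A) : (Qt A → ℝ) →ₗ[ℝ] ℝ).toAffineMap

lemma val_mem {b : P} (h : b ∈ A) (x : Qt A → ℝ) : val lam b x = lam ⟨b, h⟩ := by
  simp [val, h]

lemma val_mem_lin {b : P} (h : b ∈ A) (v : Qt A → ℝ) : (val lam b).linear v = 0 := by
  simp [val, h]

lemma val_not {b : P} (h : b ∉ A) (x : Qt A → ℝ) : val lam b x = x ⟨b, h⟩ := by
  simp [val, h]

lemma val_not_lin {b : P} (h : b ∉ A) (v : Qt A → ℝ) :
    (val lam b).linear v = v ⟨b, h⟩ := by
  simp [val, h]

/-- The value of a chain `S` starting at `a`. -/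
noncomputable def chv (a : A) (S : Finset (Qt A)) : (Qt A → ℝ) →ᵃ[ℝ] ℝ :=
  (∑ q ∈ S, (LinearMap.proj q : (Qt A → ℝ) →ₗ[ℝ] ℝ)).toAffineMap + AffineMap.const ℝ _ (lam a)

lemma chv_apply (a : A) (S : Finset (Qt A)) (x : Qt A → ℝ) :
    chv lam a S x = lam a + ∑ q ∈ S, x q := by
  simp [chv, add_comm]

lemma chv_lin (a : A) (S : Finset (Qt A)) (v : Qt A → ℝ) :
    (chv lam a S).linear v = ∑ q ∈ S, v q := by
  simp [chv]

/-- Coordinates as affine functionals. -/
noncomputable def crd (q : Qt A) : (Qt A → ℝ) →ᵃ[ℝ] ℝ :=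
  (LinearMap.proj q : (Qt A → ℝ) →ₗ[ℝ] ℝ).toAffineMap

lemma crd_apply (q : Qt A) (x : Qt A → ℝ) : crd q x = x q := rfl
lemma crd_lin (q : Qt A) (v : Qt A → ℝ) : (crd q).linear v = v q := rfl

end val

variable [PartialOrder P] {A : Set P}

/-- `S` is a chain in `C` strictly between `a` and `q`. -/
def DC (C : Set (Qt A)) (q : P) (a : A) (S : Finset (Qt A)) : Prop :=
  (S : Set (Qt A)) ⊆ C ∧ IsChain (· < ·) (S : Set (Qt A)) ∧
    (∀ r ∈ S, (a : P) < r ∧ (r : P) < q) ∧ (a : P) < q

/-- `b` is not in `D`. -/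
def Out (D : Set (Qt A)) (b : P) : Prop := ∀ h : b ∉ A, (⟨b, h⟩ : Qt A) ∉ D

/-- Chain constraints. -/
def V2 (C D : Set (Qt A)) (a : A) (S : Finset (Qt A)) (b : P) : Prop :=
  DC C b a S ∧ Out D b ∧ (S.Nonempty ∨ b ∉ A ∨ ∃ q : Qt A, (a : P) < q ∧ (q : P) < b)

/-- Order constraints. -/
def V3 (D : Set (Qt A)) (q : Qt A) (b : P) : Prop := q ∉ D ∧ Out D b ∧ (q : P) < b

/-- The marked chain-order polytope of a lower set `C`. -/
def OC (lam : A → ℝ) (C : Set (Qt A)) : Set (Qt A → ℝ) :=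
  {x | (∀ q ∈ C, 0 ≤ x q) ∧
       (∀ a S b, V2 C C a S b → lam a + ∑ q ∈ S, x q ≤ val lam b x) ∧
       (∀ q b, V3 C q b → x q ≤ val lam b x)}

/-- Index type of the base constraints. -/
abbrev Jt (C D : Set (Qt A)) :=
  {q : Qt A // q ∈ C} ⊕ ({t : A × Finset (Qt A) × P // V2 C D t.1 t.2.1 t.2.2} ⊕
    {t : Qt A × P // V3 D t.1 t.2})

/-- The base constraints. -/
noncomputable def alp (lam : A → ℝ) (C D : Set (Qt A)) : Jt C D → (Qt A → ℝ) →ᵃ[ℝ] ℝ :=
  Sum.elim (fun q => crd q.1) (Sum.elim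
    (fun t => val lam t.1.2.2 - chv lam t.1.1 t.1.2.1)
    (fun t => val lam t.1.2 - crd t.1.1))

/-- Lower functionals. -/
noncomputable def low (lam : A → ℝ) (C : Set (Qt A)) (p : Qt A) :
    {t : A × Finset (Qt A) // DC C p t.1 t.2} → (Qt A → ℝ) →ᵃ[ℝ] ℝ :=
  fun t => chv lam t.1.1 t.1.2

/-- Upper functionals. -/
noncomputable def upp (lam : A → ℝ) (p : Qt A) :
    {b : P // (p : P) < b} → (Qt A → ℝ) →ᵃ[ℝ] ℝ :=
  fun b => val lam b.1

lemma mem_alp {lam : A → ℝ} {C D : Set (Qt A)} {x : Qt A → ℝ} :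
    x ∈ sys (alp lam C D) ↔ (∀ q ∈ C, 0 ≤ x q) ∧
      (∀ a S b, V2 C D a S b → lam a + ∑ q ∈ S, x q ≤ val lam b x) ∧
      (∀ q b, V3 D q b → x q ≤ val lam b x) := by
  constructor
  · intro h
    refine ⟨fun q hq => h (Sum.inl ⟨q, hq⟩), fun a S b hv => ?_, fun q b hv => ?_⟩
    · have h' : 0 ≤ val lam b x - chv lam a S x := h (Sum.inr (Sum.inl ⟨(a, S, b), hv⟩))
      rw [chv_apply] at h'; linarith
    · have h' : 0 ≤ val lam b x - crd q x := h (Sum.inr (Sum.inr ⟨(q, b), hv⟩))
      rw [crd_apply] at h'; linarith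
  · rintro ⟨h1, h2, h3⟩ z
    rcases z with ⟨q, hq⟩ | ⟨⟨a, S, b⟩, hv⟩ | ⟨⟨q, b⟩, hv⟩
    · exact h1 q hq
    · show 0 ≤ val lam b x - chv lam a S x
      rw [chv_apply]; linarith [h2 a S b hv]
    · show 0 ≤ val lam b x - crd q x
      rw [crd_apply]; linarith [h3 q b hv]

section step

variable {C : Set (Qt A)} {p : Qt A}

omit [PartialOrder P] in
lemma out_insert {b : P} (h : Out (insert p C) b) : Out C b :=
  fun hb hC => h hb (Set.mem_insert_of_mem _ hC)

lemma out_above (hC : IsLowerSet C) (hp : p ∉ C) {b : P} (hb : (p : P) < b) :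
    Out (insert p C) b := by
  intro h hmem
  rcases hmem with h1 | h1
  · have : b = (p : P) := congrArg Subtype.val h1
    rw [this] at hb; exact lt_irrefl _ hb
  · exact hp (hC (show p ≤ ⟨b, h⟩ from hb.le) h1)

lemma OC_eq_A (lam : A → ℝ) (hC : IsLowerSet C) (hp : p ∉ C)
    (hmin : ∀ q : Qt A, q < p → q ∈ C) :
    OC lam C = sys (sysA (alp lam C (insert p C)) (low lam C p) (upp lam p) (crd p)) := by
  ext x
  rw [memA, mem_alp]
  constructor
  · rintro ⟨h1, h2, h3⟩
    refine ⟨⟨h1, fun a S b hv => h2 a S b ⟨hv.1, out_insert hv.2.1, hv.2.2⟩,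
      fun q b hv => h3 q b ⟨fun h => hv.1 (Set.mem_insert_of_mem _ h), out_insert hv.2.1,
        hv.2.2⟩⟩, ?_, ?_⟩
    · rintro ⟨⟨a, S⟩, hk⟩
      show chv lam a S x ≤ x p
      rw [chv_apply]
      have := h2 a S p ⟨hk, fun h => hp, Or.inr (Or.inl p.2)⟩
      rwa [val_not lam p.2] at this
    · rintro ⟨b, hb⟩
      show x p ≤ val lam b x
      exact h3 p b ⟨hp, out_insert (out_above hC hp hb), hb⟩
  · rintro ⟨⟨h1, h2, h3⟩, h4, h5⟩
    refine ⟨h1, fun a S b hv => ?_, fun q b hv => ?_⟩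
    · by_cases hbp : b = (p : P)
      · subst hbp
        have := h4 ⟨(a, S), hv.1⟩
        have h' : chv lam a S x ≤ x p := this
        rw [chv_apply] at h'
        rw [val_not lam p.2]; exact h'
      · refine h2 a S b ⟨hv.1, fun h hmem => ?_, hv.2.2⟩
        rcases hmem with h' | h'
        · exact hbp (congrArg Subtype.val h')
        · exact hv.2.1 h h'
    · by_cases hqp : q = p
      · subst hqp
        exact h5 ⟨b, hv.2.2⟩
      · refine h3 q b ⟨?_, fun h hmem => ?_, hv.2.2⟩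
        · rintro (h' | h')
          · exact hqp h'
          · exact hv.1 h'
        · rcases hmem with h' | h'
          · have : b = (p : P) := congrArg Subtype.val h'
            have hlt : q < p := by
              have h2 := hv.2.2
              rw [this] at h2; exact h2
            exact hv.1 (hmin q hlt)
          · exact hv.2.1 h h'

/-- Removing the top element of a chain. -/
lemma dc_erase [DecidableEq (Qt A)] (hC : IsLowerSet C) (hp : p ∉ C) {a : A}
    {S : Finset (Qt A)} {b : P} (hS : (S : Set (Qt A)) ⊆ insert p C) (hpS : p ∈ S)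
    (hch : IsChain (· < ·) (S : Set (Qt A)))
    (hab : ∀ r ∈ S, (a : P) < r ∧ (r : P) < b) : DC C p a (S.erase p) := by
  refine ⟨?_, ?_, ?_, (hab p hpS).1⟩
  · intro r hr
    rw [Finset.mem_coe, Finset.mem_erase] at hr
    rcases hS hr.2 with h | h
    · exact absurd h hr.1
    · exact h
  · intro r hr r' hr' hne
    rw [Finset.mem_coe, Finset.mem_erase] at hr hr'
    exact hch hr.2 hr'.2 hne
  · intro r hr
    rw [Finset.mem_erase] at hr
    refine ⟨(hab r hr.2).1, ?_⟩
    have hrC : r ∈ C := by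
      rcases hS hr.2 with h | h
      · exact absurd h hr.1
      · exact h
    rcases hch hr.2 hpS hr.1 with h | h
    · exact h
    · exact absurd (hC h.le hrC) hp

lemma OC_eq_B (lam : A → ℝ) (hC : IsLowerSet C) (hp : p ∉ C) :
    OC lam (insert p C) =
      sys (sysB (alp lam C (insert p C)) (low lam C p) (upp lam p) (crd p)) := by
  classical
  ext x
  rw [memB, mem_alp]
  constructor
  · rintro ⟨h1, h2, h3⟩
    refine ⟨⟨fun q hq => h1 q (Set.mem_insert_of_mem _ hq), fun a S b hv =>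
      h2 a S b ⟨⟨hv.1.1.trans (Set.subset_insert _ _), hv.1.2⟩, hv.2.1, hv.2.2⟩, h3⟩,
      h1 p (Set.mem_insert _ _), ?_⟩
    rintro ⟨⟨a, S⟩, hk⟩ ⟨b, hb⟩
    show x p ≤ val lam b x - chv lam a S x
    rw [chv_apply]
    have hpS : p ∉ S := fun h => hp (hk.1 h)
    have := h2 a (insert p S) b ⟨⟨?_, ?_, ?_, hk.2.2.2.trans hb⟩, out_above hC hp hb,
      Or.inl ⟨p, Finset.mem_insert_self _ _⟩⟩
    · rw [Finset.sum_insert hpS] at this
      linarith
    · rw [Finset.coe_insert]
      exact Set.insert_subset_insert hk.1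
    · rw [Finset.coe_insert]
      apply hk.2.1.insert
      intro r hr _
      exact Or.inr (hk.2.2.1 r hr).2
    · intro r hr
      rcases Finset.mem_insert.1 hr with h | h
      · subst h; exact ⟨hk.2.2.2, hb⟩
      · exact ⟨(hk.2.2.1 r h).1, (hk.2.2.1 r h).2.trans hb⟩
  · rintro ⟨⟨h1, h2, h3⟩, h4, h5⟩
    refine ⟨?_, fun a S b hv => ?_, h3⟩
    · rintro q (h | h)
      · rw [h]; exact h4
      · exact h1 q h
    · by_cases hpS : p ∈ S
      · have hdc := dc_erase hC hp hv.1.1 hpS hv.1.2.1 hv.1.2.2.1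
        have h6 := h5 ⟨(a, S.erase p), hdc⟩ ⟨b, (hv.1.2.2.1 p hpS).2⟩
        have h7 : x p ≤ val lam b x - chv lam a (S.erase p) x := h6
        rw [chv_apply] at h7
        rw [← Finset.add_sum_erase S x hpS]
        linarith
      · refine h2 a S b ⟨⟨?_, hv.1.2⟩, hv.2⟩
        intro r hr
        rcases hv.1.1 hr with h | h
        · subst h; exact absurd hr hpS
        · exact h

end step

/-- Telescoping along a chain. -/
lemma telescope {Q : Type*} [PartialOrder Q] [DecidableEq Q] [DecidableLT Q] [DecidableLE Q]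
    (f : Finset Q → ℝ) :
    ∀ (n : ℕ) (S : Finset Q), S.card = n → IsChain (· < ·) (S : Set Q) →
      ∑ q ∈ S, (f (S.filter (· ≤ q)) - f (S.filter (· < q))) = f S - f ∅ := by
  intro n
  induction n with
  | zero =>
    intro S hS _
    rw [Finset.card_eq_zero.1 hS]; simp
  | succ n ih =>
    intro S hS hch
    have hne : S.Nonempty := by
      rw [← Finset.card_pos, hS]; omega
    obtain ⟨q0, hq0, hmax⟩ := S.exists_maximal hne
    have hlt : ∀ q ∈ S, q ≠ q0 → q < q0 := by
      intro q hq hne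
      rcases hch hq hq0 hne with h | h
      · exact h
      · exact absurd (hmax hq h.le) (not_le_of_gt h)
    have hch' : IsChain (· < ·) ((S.erase q0 : Finset Q) : Set Q) := by
      intro r hr r' hr' hne
      rw [Finset.mem_coe, Finset.mem_erase] at hr hr'
      exact hch hr.2 hr'.2 hne
    have hih := ih (S.erase q0) (by rw [Finset.card_erase_of_mem hq0, hS]; omega) hch'
    have e1 : S.filter (· ≤ q0) = S := by
      ext r; simp only [Finset.mem_filter, and_iff_left_iff_imp]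
      intro hr
      by_cases h : r = q0
      · rw [h]
      · exact (hlt r hr h).le
    have e2 : S.filter (· < q0) = S.erase q0 := by
      ext r; simp only [Finset.mem_filter, Finset.mem_erase]
      constructor
      · rintro ⟨h1, h2⟩; exact ⟨h2.ne, h1⟩
      · rintro ⟨h1, h2⟩; exact ⟨h2, hlt r h2 h1⟩
    rw [← Finset.add_sum_erase S _ hq0, e1, e2]
    have e3 : ∑ q ∈ S.erase q0, (f (S.filter (· ≤ q)) - f (S.filter (· < q))) =
        ∑ q ∈ S.erase q0, (f ((S.erase q0).filter (· ≤ q)) - f ((S.erase q0).filter (· < q))) := by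
      apply Finset.sum_congr rfl
      intro q hq
      rw [Finset.mem_erase] at hq
      have hql := hlt q hq.2 hq.1
      have e4 : S.filter (· ≤ q) = (S.erase q0).filter (· ≤ q) := by
        ext r; simp only [Finset.mem_filter, Finset.mem_erase]
        constructor
        · rintro ⟨h1, h2⟩
          refine ⟨⟨?_, h1⟩, h2⟩
          rintro rfl
          exact absurd h2 (not_le_of_gt hql)
        · rintro ⟨⟨_, h1⟩, h2⟩; exact ⟨h1, h2⟩
      have e5 : S.filter (· < q) = (S.erase q0).filter (· < q) := by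
        ext r; simp only [Finset.mem_filter, Finset.mem_erase]
        constructor
        · rintro ⟨h1, h2⟩
          refine ⟨⟨?_, h1⟩, h2⟩
          rintro rfl
          exact absurd h2 (not_lt_of_gt hql)
        · rintro ⟨⟨_, h1⟩, h2⟩; exact ⟨h1, h2⟩
      rw [e4, e5]
    rw [e3, hih]; ring

end Pool.Agent.Helper19.Marked
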