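import Mathlib
import Pool.Agent.Helper19.Marked.Poset

/-!
# Independence of upper and lower ties, and the main theorem
-/

open Set Module

namespace Pool.Agent.Helper19.Marked

variable {P : Type*} [PartialOrder P] {A : Set P}

lemma mem_dir_alp {lam : A → ℝ} {C D : Set (Qt A)} {x v : Qt A → ℝ} :
    v ∈ dir (alp lam C D) (tight (alp lam C D) x) ↔
      (∀ q ∈ C, x q = 0 → v q = 0) ∧
      (∀ a S b, V2 C D a S b → lam a + ∑ q ∈ S, x q = val lam b x →
        ∑ q ∈ S, v q = (val lam b).linear v) ∧
      (∀ q b, V3 D q b → x q = val lam b x → v q = (val lam b).linear v) := by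
  constructor
  · intro h
    refine ⟨fun q hq hx => h (Sum.inl ⟨q, hq⟩) hx, fun a S b hv hx => ?_, fun q b hv hx => ?_⟩
    · have h' := h (Sum.inr (Sum.inl ⟨(a, S, b), hv⟩)) (by
        show val lam b x - chv lam a S x = 0
        rw [chv_apply]; linarith)
      have h2 : (val lam b - chv lam a S).linear v = 0 := h'
      rw [AffineMap.sub_linear, LinearMap.sub_apply, chv_lin] at h2
      linarith
    · have h' := h (Sum.inr (Sum.inr ⟨(q, b), hv⟩)) (by
        show val lam b x - crd q x = 0
        rw [crd_apply]; linarith)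
      have h2 : (val lam b - crd q).linear v = 0 := h'
      rw [AffineMap.sub_linear, LinearMap.sub_apply, crd_lin] at h2
      linarith
  · rintro ⟨h1, h2, h3⟩ z hz
    rcases z with ⟨q, hq⟩ | ⟨⟨a, S, b⟩, hv⟩ | ⟨⟨q, b⟩, hv⟩
    · exact h1 q hq hz
    · have hz' : val lam b x - chv lam a S x = 0 := hz
      rw [chv_apply] at hz'
      show (val lam b - chv lam a S).linear v = 0
      rw [AffineMap.sub_linear, LinearMap.sub_apply, chv_lin]
      linarith [h2 a S b hv (by linarith)]
    · have hz' : val lam b x - crd q x = 0 := hz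
      rw [crd_apply] at hz'
      show (val lam b - crd q).linear v = 0
      rw [AffineMap.sub_linear, LinearMap.sub_apply, crd_lin]
      linarith [h3 q b hv (by linarith)]

/-- Splicing a down-chain of `q` with the part of a chain above `q`. -/
lemma splice [DecidableEq (Qt A)] [DecidableLE (Qt A)] {C D : Set (Qt A)} {a a' : A}
    {S T : Finset (Qt A)} {b : P}
    {q : Qt A} (h : V2 C D a S b) (hq : q ∈ S) (hT : DC C q a' T) :
    V2 C D a' (T ∪ S.filter (q ≤ ·)) b := by
  obtain ⟨⟨hS1, hS2, hS3, hS4⟩, hS5, hS6⟩ := h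
  obtain ⟨hT1, hT2, hT3, hT4⟩ := hT
  have hqb : (q : P) < b := (hS3 q hq).2
  refine ⟨⟨?_, ?_, ?_, hT4.trans hqb⟩, hS5, Or.inl ⟨q, ?_⟩⟩
  · intro r hr
    rw [Finset.mem_coe, Finset.mem_union, Finset.mem_filter] at hr
    rcases hr with h | ⟨h, _⟩
    · exact hT1 h
    · exact hS1 h
  · intro r hr r' hr' hne
    rw [Finset.mem_coe, Finset.mem_union, Finset.mem_filter] at hr hr'
    rcases hr with h | ⟨h, h2⟩ <;> rcases hr' with h' | ⟨h', h2'⟩
    · exact hT2 h h' hne
    · left
      have : r < q := (hT3 r h).2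
      exact this.trans_le h2'
    · right
      have : r' < q := (hT3 r' h').2
      exact this.trans_le h2
    · exact hS2 h h' hne
  · intro r hr
    rw [Finset.mem_union, Finset.mem_filter] at hr
    rcases hr with h | ⟨h, h2⟩
    · exact ⟨(hT3 r h).1, (hT3 r h).2.trans hqb⟩
    · refine ⟨?_, (hS3 r h).2⟩
      have : (q : P) ≤ r := h2
      exact hT4.trans_le this
  · rw [Finset.mem_union, Finset.mem_filter]; exact Or.inr ⟨hq, le_rfl⟩

lemma splice_sum [DecidableEq (Qt A)] [DecidableLE (Qt A)] {C : Set (Qt A)} {a' : A}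
    {S T : Finset (Qt A)} {q : Qt A} (hT : DC C q a' T) (x : Qt A → ℝ) :
    ∑ r ∈ T ∪ S.filter (q ≤ ·), x r = ∑ r ∈ T, x r + ∑ r ∈ S.filter (q ≤ ·), x r := by
  apply Finset.sum_union
  rw [Finset.disjoint_left]
  intro r hr hr'
  rw [Finset.mem_filter] at hr'
  have h1 : r < q := (hT.2.2.1 r hr).2
  exact absurd hr'.2 (not_le_of_gt h1)

/-- Splitting a chain at one of its elements. -/
lemma split_sum [DecidableEq (Qt A)] [DecidableLE (Qt A)] [DecidableLT (Qt A)]
    {S : Finset (Qt A)} (hS : IsChain (· < ·) (S : Set (Qt A))) {q : Qt A} (hq : q ∈ S)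
    (x : Qt A → ℝ) :
    ∑ r ∈ S, x r = ∑ r ∈ S.filter (· < q), x r + ∑ r ∈ S.filter (q ≤ ·), x r := by
  rw [← Finset.sum_union]
  · congr 1
    ext r
    simp only [Finset.mem_union, Finset.mem_filter]
    constructor
    · intro hr
      by_cases h : r = q
      · subst h; exact Or.inr ⟨hr, le_rfl⟩
      · rcases hS hr hq h with h' | h'
        · exact Or.inl ⟨hr, h'⟩
        · exact Or.inr ⟨hr, h'.le⟩
    · rintro (⟨h, _⟩ | ⟨h, _⟩) <;> exact h
  · rw [Finset.disjoint_left]
    intro r hr hr'
    rw [Finset.mem_filter] at hr hr'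
    exact absurd hr'.2 (not_le_of_gt hr.2)

lemma dc_filter [DecidableLT (Qt A)] {C D : Set (Qt A)} {a : A}
    {S : Finset (Qt A)} {b : P} {q : Qt A} (h : V2 C D a S b) (hq : q ∈ S) :
    DC C q a (S.filter (· < q)) := by
  obtain ⟨⟨hS1, hS2, hS3, hS4⟩, hS5, hS6⟩ := h
  refine ⟨fun r hr => hS1 (Finset.mem_filter.1 hr).1, ?_, ?_, (hS3 q hq).1⟩
  · intro r hr r' hr' hne
    exact hS2 (Finset.mem_filter.1 hr).1 (Finset.mem_filter.1 hr').1 hne
  · intro r hr
    rw [Finset.mem_filter] at hr
    exact ⟨(hS3 r hr.1).1, hr.2⟩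

theorem indep [Finite P] (lam : A → ℝ) {C : Set (Qt A)} {p : Qt A}
    (hC : IsLowerSet C) (hp : p ∉ C) (hA : ∀ q : Qt A, ∃ a : A, (a : P) < q) :
    Indep (alp lam C (insert p C)) (low lam C p) (upp lam p) := by
  classical
  intro x hx v hv
  obtain ⟨hx1, hx2⟩ := hx
  rw [mem_alp] at hx1
  obtain ⟨h1, h2, h3⟩ := hx1
  have hv0 := hv
  rw [mem_dir_alp] at hv
  obtain ⟨hv1, hv2, hv3⟩ := hv
  -- best down-chains
  have hbest : ∀ q : Qt A, ∃ t : A × Finset (Qt A), DC C q t.1 t.2 ∧
      ∀ a S, DC C q a S → lam a + ∑ r ∈ S, x r ≤ lam t.1 + ∑ r ∈ t.2, x r := by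
    intro q
    obtain ⟨a, ha⟩ := hA q
    obtain ⟨t, ht, htm⟩ := Set.exists_max_image {t : A × Finset (Qt A) | DC C q t.1 t.2}
      (fun t => lam t.1 + ∑ r ∈ t.2, x r) (Set.toFinite _)
      ⟨(a, ∅), by
        refine ⟨by simp, by simp [IsChain], by simp, ha⟩⟩
    exact ⟨t, ht, fun a S h => htm (a, S) h⟩
  choose t htDC htmax using hbest
  let m : Qt A → ℝ := fun q => lam (t q).1 + ∑ r ∈ (t q).2, x r
  let π : Qt A → ℝ := fun q => ∑ r ∈ (t q).2, v r
  let lo : ℝ → Prop := fun z => ∀ b : {b : P // (p : P) < b}, z < val lam b.1 x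
  let w : Qt A → ℝ := fun q =>
    if q ∈ C then (if lo (m q + x q) then π q + v q else 0) - (if lo (m q) then π q else 0)
    else if q = p then 0 else if lo (x q) then v q else 0
  -- facts about a tight chain
  have hm : ∀ a S b, V2 C (insert p C) a S b → lam a + ∑ q ∈ S, x q = val lam b x →
      ∀ q ∈ S, m q = lam a + ∑ r ∈ S.filter (· < q), x r ∧ π q = ∑ r ∈ S.filter (· < q), v r := by
    intro a S b hV hT q hq
    have hsp := splice hV hq (htDC q)
    have e1 := h2 _ _ _ hsp
    rw [splice_sum (htDC q)] at e1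
    have e2 := htmax q a (S.filter (· < q)) (dc_filter hV hq)
    have e3 := split_sum hV.1.2.1 hq x
    have e4 : m q = lam a + ∑ r ∈ S.filter (· < q), x r := by
      show lam (t q).1 + ∑ r ∈ (t q).2, x r = _
      linarith
    refine ⟨e4, ?_⟩
    have e5 : lam (t q).1 + ∑ r ∈ (t q).2 ∪ S.filter (q ≤ ·), x r = val lam b x := by
      rw [splice_sum (htDC q)]
      have : lam (t q).1 + ∑ r ∈ (t q).2, x r = lam a + ∑ r ∈ S.filter (· < q), x r := e4
      linarith
    have e6 := hv2 _ _ _ hsp e5
    rw [splice_sum (htDC q)] at e6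
    have e7 := hv2 _ _ _ hV hT
    have e8 := split_sum hV.1.2.1 hq v
    show ∑ r ∈ (t q).2, v r = _
    linarith
  have hwC : ∀ q ∈ C, w q = (if lo (m q + x q) then π q + v q else 0) -
      (if lo (m q) then π q else 0) := fun q hq => by simp only [w, if_pos hq]
  have hwO : ∀ q ∉ insert p C, w q = if lo (x q) then v q else 0 := by
    intro q hq
    have h1 : q ∉ C := fun h => hq (Set.mem_insert_of_mem _ h)
    have h2 : q ≠ p := fun h => hq (by rw [h]; exact Set.mem_insert _ _)
    simp only [w, if_neg h1, if_neg h2]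
  -- value of the linear part of `val` at `w`
  have hwval : ∀ b : P, Out (insert p C) b →
      (val lam b).linear w = if lo (val lam b x) then (val lam b).linear v else 0 := by
    intro b hb
    by_cases hbA : b ∈ A
    · rw [val_mem_lin lam hbA, val_mem_lin lam hbA]; simp
    · rw [val_not_lin lam hbA, val_not_lin lam hbA, val_not lam hbA]
      exact hwO _ (hb hbA)
  -- tight chains
  have hw2 : ∀ a S b, V2 C (insert p C) a S b → lam a + ∑ q ∈ S, x q = val lam b x →
      ∑ q ∈ S, w q = (val lam b).linear w := by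
    intro a S b hV hT
    let f : Finset (Qt A) → ℝ := fun S' =>
      if lo (lam a + ∑ r ∈ S', x r) then ∑ r ∈ S', v r else 0
    have e1 : ∑ q ∈ S, w q =
        ∑ q ∈ S, (f (S.filter (· ≤ q)) - f (S.filter (· < q))) := by
      apply Finset.sum_congr rfl
      intro q hq
      obtain ⟨e2, e3⟩ := hm a S b hV hT q hq
      have hqC : q ∈ C := hV.1.1 hq
      have e4 : S.filter (· ≤ q) = insert q (S.filter (· < q)) := by
        ext r
        simp only [Finset.mem_filter, Finset.mem_insert]
        constructor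
        · rintro ⟨h, h'⟩
          rcases eq_or_lt_of_le h' with h'' | h''
          · exact Or.inl h''
          · exact Or.inr ⟨h, h''⟩
        · rintro (h | ⟨h, h'⟩)
          · rw [h]; exact ⟨hq, le_rfl⟩
          · exact ⟨h, h'.le⟩
      have e5 : q ∉ S.filter (· < q) := by simp
      rw [hwC q hqC]
      simp only [f]
      rw [e4, Finset.sum_insert e5, Finset.sum_insert e5, e2, e3]
      have e6 : lam a + ∑ r ∈ S.filter (· < q), x r + x q =
          lam a + (x q + ∑ r ∈ S.filter (· < q), x r) := by ring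
      have e7 : ∑ r ∈ S.filter (· < q), v r + v q = v q + ∑ r ∈ S.filter (· < q), v r := by ring
      rw [e6, e7]
    rw [e1, telescope f S.card S rfl hV.1.2.1]
    have e8 : f ∅ = 0 := by simp [f]
    rw [e8, sub_zero, hwval b hV.2.1]
    simp only [f]
    rw [hT, hv2 a S b hV hT]
  have hwdir : w ∈ dir (alp lam C (insert p C)) (tight (alp lam C (insert p C)) x) := by
    rw [mem_dir_alp]
    refine ⟨fun q hq hxq => ?_, hw2, fun q b hV hT => ?_⟩
    · rw [hwC q hq, hv1 q hq hxq, hxq, add_zero, add_zero, sub_self]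
    · rw [hwO q hV.1, hwval b hV.2.1, hT, hv3 q b hV hT]
  refine ⟨v - w, w, Submodule.sub_mem _ hv0 hwdir, ?_, hwdir, ?_, by abel⟩
  · -- lower ties
    have hz : ∀ k ∈ kap (low lam C p) x, (low lam C p k).linear (v - w) = 0 := by
      rintro ⟨⟨a, S⟩, hk⟩ hmax
      show (chv lam a S).linear (v - w) = 0
      rw [chv_lin]
      apply Finset.sum_eq_zero
      intro q hq
      have hqC : q ∈ C := hk.1 hq
      have hqp : (q : P) < p := (hk.2.2.1 q hq).2
      -- the chain of `q` followed by `q`
      have hqT : q ∉ (t q).2 := by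
        intro h
        have : (q : P) < q := ((htDC q).2.2.1 q h).2
        exact lt_irrefl _ this
      have hdc : DC C p (t q).1 (insert q (t q).2) := by
        obtain ⟨g1, g2, g3, g4⟩ := htDC q
        refine ⟨?_, ?_, ?_, g4.trans hqp⟩
        · rw [Finset.coe_insert]
          exact Set.insert_subset hqC g1
        · rw [Finset.coe_insert]
          apply g2.insert
          intro r hr _
          exact Or.inr (g3 r hr).2
        · intro r hr
          rcases Finset.mem_insert.1 hr with h | h
          · rw [h]; exact ⟨g4, hqp⟩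
          · exact ⟨(g3 r h).1, (g3 r h).2.trans hqp⟩
      have hle : chv lam (t q).1 (insert q (t q).2) x ≤ chv lam a S x :=
        hmax ⟨((t q).1, insert q (t q).2), hdc⟩
      rw [chv_apply, Finset.sum_insert hqT] at hle
      have hlt : ∀ b : {b : P // (p : P) < b}, chv lam a S x < val lam b.1 x :=
        fun b => hx2 ⟨(a, S), hk⟩ b
      have hmq : m q + x q ≤ chv lam a S x := by
        show lam (t q).1 + ∑ r ∈ (t q).2, x r + x q ≤ _
        linarith
      have hlo1 : lo (m q + x q) := fun b => hmq.trans_lt (hlt b)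
      have hlo2 : lo (m q) := fun b => by
        have := h1 q hqC
        have := hlt b
        linarith
      show v q - w q = 0
      rw [hwC q hqC, if_pos hlo1, if_pos hlo2]; ring
    intro k hk k' hk'
    rw [hz k hk, hz k' hk']
  · -- upper ties
    have hz : ∀ b ∈ mu (upp lam p) x, (upp lam p b).linear w = 0 := by
      intro b hb
      show (val lam b.1).linear w = 0
      rw [hwval b.1 (out_above hC hp b.2), if_neg]
      intro hlo
      exact lt_irrefl _ (hlo b)
    intro k hk k' hk'
    rw [hz k hk, hz k' hk']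

end Pool.Agent.Helper19.Marked
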