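import Mathlib
import Pool.Agent.Helper19.Marked.Indep

/-!
# Face numbers of marked order and marked chain polytopes
-/

open Set Module

namespace Pool.Agent.Helper19.Marked

variable {P : Type*} [PartialOrder P] {A : Set P}

lemma OC_empty (lam : A → ℝ) : OC lam ∅ = orderPolytope A lam := by
  ext x
  constructor
  · rintro ⟨_, h2, h3⟩
    refine ⟨fun p q hpq => ?_, fun p a hpa => ?_, fun b q hbq => ?_⟩
    · have := h3 p q ⟨by simp, fun _ => by simp, hpq⟩
      rwa [val_not lam q.2] at this
    · have := h3 p a ⟨by simp, fun _ => by simp, hpa⟩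
      rwa [val_mem lam a.2] at this
    · have := h2 b ∅ q ⟨⟨by simp, by simp [IsChain], by simp, hbq⟩, fun _ => by simp,
        Or.inr (Or.inl q.2)⟩
      rw [val_not lam q.2] at this
      simpa using this
  · rintro ⟨h1, h2, h3⟩
    refine ⟨by simp, fun a S b hV => ?_, fun q b hV => ?_⟩
    · have hS : S = ∅ := by
        have := hV.1.1
        rw [Set.subset_empty_iff] at this
        exact_mod_cast this
      subst hS
      rw [Finset.sum_empty, add_zero]
      have hab : (a : P) < b := hV.1.2.2.2
      by_cases hb : b ∈ A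
      · rw [val_mem lam hb]
        rcases hV.2.2 with h | h | ⟨q, hq1, hq2⟩
        · exact absurd h (by simp)
        · exact absurd hb h
        · exact (h3 a q hq1).trans (h2 q ⟨b, hb⟩ hq2)
      · rw [val_not lam hb]
        exact h3 a ⟨b, hb⟩ hab
    · by_cases hb : b ∈ A
      · rw [val_mem lam hb]
        exact h2 q ⟨b, hb⟩ hV.2.2
      · rw [val_not lam hb]
        exact h1 q ⟨b, hb⟩ hV.2.2

lemma OC_univ (lam : A → ℝ) : OC lam Set.univ = chainPolytope A lam := by
  ext x
  constructor
  · rintro ⟨h1, h2, _⟩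
    refine ⟨fun q => h1 q trivial, fun S a b hne hch hab => ?_⟩
    have hlt : (b : P) < a := by
      obtain ⟨q, hq⟩ := hne
      exact (hab q hq).1.trans (hab q hq).2
    have := h2 b S a ⟨⟨by simp, hch, hab, hlt⟩, fun h => absurd a.2 h, Or.inl hne⟩
    rw [val_mem lam a.2] at this
    have h4 : lam ⟨a, a.2⟩ = lam a := rfl
    linarith
  · rintro ⟨h1, h2⟩
    refine ⟨fun q _ => h1 q, fun a S b hV => ?_, fun q b hV => absurd trivial hV.1⟩
    have hb : b ∈ A := by
      by_contra hb
      exact hV.2.1 hb trivial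
    rw [val_mem lam hb]
    rcases S.eq_empty_or_nonempty with hS | hS
    · subst hS
      rcases hV.2.2 with h | h | ⟨q, hq1, hq2⟩
      · exact absurd h (by simp)
      · exact absurd hb h
      · have h3 := h2 {q} ⟨b, hb⟩ a (by simp) (by simp) (by
          intro r hr
          rw [Finset.mem_singleton] at hr
          subst hr; exact ⟨hq1, hq2⟩)
        rw [Finset.sum_singleton] at h3
        have := h1 q
        rw [Finset.sum_empty]
        linarith
    · have h3 := h2 S ⟨b, hb⟩ a hS hV.1.2.1 hV.1.2.2.1
      linarith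

/-- Every marked chain-order polytope of a lower set has at most as many faces as the marked
chain polytope. -/
theorem faces_le_univ [Finite P] (lam : A → ℝ) (hmin : ∀ q : Qt A, ∃ a : A, (a : P) < q)
    (hmax : ∀ q : Qt A, ∃ b : P, (q : P) < b) (i : ℕ) :
    ∀ (n : ℕ) (C : Set (Qt A)), IsLowerSet C → (Cᶜ).ncard = n →
      (faces (OC lam C) i).encard ≤ (faces (OC lam Set.univ) i).encard := by
  intro n
  induction n with
  | zero =>
    intro C _ hn
    have : Cᶜ = ∅ := (Set.ncard_eq_zero (Set.toFinite _)).1 hn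
    rw [Set.compl_empty_iff.1 this]
  | succ n ih =>
    intro C hC hn
    have hne : (Cᶜ).Nonempty := by
      rw [← Set.ncard_pos (Set.toFinite _), hn]; omega
    obtain ⟨p, hp⟩ := (Set.toFinite (Cᶜ)).exists_minimal hne
    have hpC : p ∉ C := hp.1
    have hmn : ∀ q : Qt A, q < p → q ∈ C := by
      intro q hq
      by_contra hcon
      exact absurd (hp.2 hcon hq.le) (not_le_of_gt hq)
    have hC' : IsLowerSet (insert p C) := by
      intro a b hba ha
      rcases ha with h | h
      · rw [h] at hba
        rcases eq_or_lt_of_le hba with h' | h'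
        · rw [h']; exact Set.mem_insert _ _
        · exact Set.mem_insert_of_mem _ (hmn b h')
      · exact Set.mem_insert_of_mem _ (hC hba h)
    have hcard : ((insert p C)ᶜ).ncard = n := by
      have h1 : (insert p C)ᶜ = Cᶜ \ {p} := by
        ext q
        simp only [Set.mem_compl_iff, Set.mem_insert_iff, Set.mem_sdiff, Set.mem_singleton_iff]
        tauto
      rw [h1, Set.ncard_sdiff_singleton_of_mem hp.1, hn]; omega
    refine le_trans ?_ (ih _ hC' hcard)
    classical
    have := Fintype.ofFinite (Qt A)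
    rw [OC_eq_A lam hC hpC hmn, OC_eq_B lam hC hpC]
    -- nonempty families
    obtain ⟨a, ha⟩ := hmin p
    have : Nonempty {t : A × Finset (Qt A) // DC C p t.1 t.2} :=
      ⟨⟨(a, ∅), by refine ⟨by simp, by simp [IsChain], by simp, ha⟩⟩⟩
    obtain ⟨b, hb⟩ := hmax p
    have : Nonempty {b : P // (p : P) < b} := ⟨⟨b, hb⟩⟩
    -- the direction of the coordinate `p`
    apply step_faces (e := Pi.single p (1 : ℝ))
    · -- lower functionals are below upper ones
      rintro x hx ⟨⟨a, S⟩, hk⟩ ⟨b, hb⟩
      rw [mem_alp] at hx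
      show chv lam a S x ≤ val lam b x
      rw [chv_apply]
      refine hx.2.1 a S b ⟨⟨hk.1, hk.2.1, fun r hr => ⟨(hk.2.2.1 r hr).1,
        (hk.2.2.1 r hr).2.trans hb⟩, hk.2.2.2.trans hb⟩, out_above hC hpC hb,
        Or.inr (Or.inr ⟨p, hk.2.2.2, hb⟩)⟩
    · exact indep lam hC hpC hmin
    · -- base constraints do not involve `p`
      have hval : ∀ b : P, Out (insert p C) b →
          (val lam b).linear (Pi.single p (1 : ℝ)) = 0 := by
        intro b hb
        by_cases hbA : b ∈ A
        · rw [val_mem_lin lam hbA]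
        · rw [val_not_lin lam hbA, Pi.single_apply, if_neg]
          intro h
          exact hb hbA (by rw [h]; exact Set.mem_insert _ _)
      rintro (⟨q, hq⟩ | ⟨⟨a, S, b⟩, hV⟩ | ⟨⟨q, b⟩, hV⟩)
      · show (crd q).linear _ = 0
        rw [crd_lin, Pi.single_apply, if_neg]
        rintro rfl; exact hpC hq
      · show (val lam b - chv lam a S).linear _ = 0
        rw [AffineMap.sub_linear, LinearMap.sub_apply, chv_lin, hval b hV.2.1,
          Finset.sum_eq_zero, sub_zero]
        intro r hr
        rw [Pi.single_apply, if_neg]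
        rintro rfl; exact hpC (hV.1.1 hr)
      · show (val lam b - crd q).linear _ = 0
        rw [AffineMap.sub_linear, LinearMap.sub_apply, crd_lin, hval b hV.2.1,
          Pi.single_apply, if_neg, sub_zero]
        rintro rfl; exact hV.1 (Set.mem_insert _ _)
    · rintro ⟨⟨a, S⟩, hk⟩
      show (chv lam a S).linear _ = 0
      rw [chv_lin, Finset.sum_eq_zero]
      intro r hr
      rw [Pi.single_apply, if_neg]
      rintro rfl; exact hpC (hk.1 hr)
    · rintro ⟨b, hb⟩
      show (val lam b).linear _ = 0
      by_cases hbA : b ∈ A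
      · rw [val_mem_lin lam hbA]
      · rw [val_not_lin lam hbA, Pi.single_apply, if_neg]
        intro h
        have : b = (p : P) := congrArg Subtype.val h
        rw [this] at hb; exact lt_irrefl _ hb
    · show (crd p).linear _ = 1
      rw [crd_lin, Pi.single_eq_same]

/-- **Main theorem.** -/
theorem faces_order_le_chain [Finite P] (A : Set P) (hmin : ∀ p : P, IsMin p → p ∈ A)
    (hmax : ∀ p : P, IsMax p → p ∈ A) (lam : A → ℝ) (i : ℕ) :
    (faces (orderPolytope A lam) i).encard ≤ (faces (chainPolytope A lam) i).encard := by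
  have h1 : ∀ q : Qt A, ∃ a : A, (a : P) < q := by
    intro q
    obtain ⟨a, ha, haq⟩ : ∃ a : P, IsMin a ∧ a ≤ q := by
      obtain ⟨a, ha⟩ := (Set.toFinite (Set.Iic (q : P))).exists_minimal ⟨q, le_refl (q : P)⟩
      refine ⟨a, ?_, ha.1⟩
      intro b hb
      exact ha.2 (hb.trans ha.1) hb
    refine ⟨⟨a, hmin a ha⟩, lt_of_le_of_ne haq ?_⟩
    intro h
    exact q.2 (h ▸ hmin a ha)
  have h2 : ∀ q : Qt A, ∃ b : P, (q : P) < b := by
    intro q
    have : ¬ IsMax (q : P) := fun h => q.2 (hmax _ h)
    rwa [not_isMax_iff] at this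
  rw [← OC_empty, ← OC_univ]
  exact faces_le_univ lam h1 h2 i _ ∅ isLowerSet_empty rfl

lemma OC_eq_sys (lam : A → ℝ) (C : Set (Qt A)) : OC lam C = sys (alp lam C C) := by
  ext x
  rw [mem_alp]; rfl

theorem finite_faces_order [Finite P] (A : Set P) (lam : A → ℝ) (i : ℕ) :
    (faces (orderPolytope A lam) i).Finite := by
  classical
  have := Fintype.ofFinite (Qt A)
  rw [← OC_empty, OC_eq_sys]
  exact finite_faces_sys _ i

theorem finite_faces_chain [Finite P] (A : Set P) (lam : A → ℝ) (i : ℕ) :
    (faces (chainPolytope A lam) i).Finite := by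
  classical
  have := Fintype.ofFinite (Qt A)
  rw [← OC_univ, OC_eq_sys]
  exact finite_faces_sys _ i

end Pool.Agent.Helper19.Marked
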